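import Pool.Agent.R132.KC.Defs

set_option autoImplicit false

namespace R132.KC

open Finset

theorem a_cube (a : ℕ) : a ^ 3 ≤ 3 ^ a := by
  induction a with
  | zero => norm_num
  | succ n ih =>
    rcases Nat.lt_or_ge n 3 with h | h
    · interval_cases n <;> norm_num
    · have h1 : (n + 1) ^ 3 ≤ 3 * n ^ 3 := by
        nlinarith [Nat.mul_le_mul h h, Nat.mul_le_mul (Nat.mul_le_mul h h) h,
          Nat.zero_le n, Nat.mul_le_mul_left (n ^ 2) h, Nat.mul_le_mul_left n h]
      calc (n + 1) ^ 3 ≤ 3 * n ^ 3 := h1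
        _ ≤ 3 * 3 ^ n := Nat.mul_le_mul_left 3 ih
        _ = 3 ^ (n + 1) := by ring

theorem a_cube' (a : ℕ) (h2 : a ≠ 2) (h3 : a ≠ 3) : 81 * a ^ 3 ≤ 64 * 3 ^ a := by
  rcases Nat.lt_or_ge a 4 with h | h
  · interval_cases a <;> simp_all
  · induction a, h using Nat.le_induction with
    | base => norm_num
    | succ n hn ih =>
      have ih' := ih (by omega) (by omega)
      have h1 : (n + 1) ^ 3 ≤ 3 * n ^ 3 := by
        nlinarith [Nat.mul_le_mul hn hn, Nat.mul_le_mul (Nat.mul_le_mul hn hn) hn,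
          Nat.zero_le n, Nat.mul_le_mul_left (n ^ 2) hn, Nat.mul_le_mul_left n hn]
      calc 81 * (n + 1) ^ 3 ≤ 81 * (3 * n ^ 3) := Nat.mul_le_mul_left 81 h1
        _ = 3 * (81 * n ^ 3) := by ring
        _ ≤ 3 * (64 * 3 ^ n) := Nat.mul_le_mul_left 3 ih'
        _ = 64 * 3 ^ (n + 1) := by ring

theorem a_prod_cube {c : ℕ} (a : Fin c → ℕ) : (∏ i, a i) ^ 3 ≤ 3 ^ (∑ i, a i) := by
  rw [← Finset.prod_pow, ← Finset.prod_pow_eq_pow_sum]
  exact Finset.prod_le_prod' (fun i _ => a_cube (a i))

theorem a_prod_cube' {c : ℕ} (a : Fin c → ℕ) (j : Fin c) (h2 : a j ≠ 2) (h3 : a j ≠ 3) :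
    81 * (∏ i, a i) ^ 3 ≤ 64 * 3 ^ (∑ i, a i) := by
  rw [← Finset.prod_pow, ← Finset.prod_pow_eq_pow_sum]
  rw [← Finset.mul_prod_erase univ _ (mem_univ j), ← Finset.mul_prod_erase univ _ (mem_univ j),
    ← mul_assoc, ← mul_assoc]
  exact Nat.mul_le_mul (a_cube' (a j) h2 h3) (Finset.prod_le_prod' (fun i _ => a_cube (a i)))

/-- non-main case: product is smaller than `2 * 3^(c-1)` -/
theorem a_small {c : ℕ} (hc : 1 ≤ c) (a : Fin c → ℕ) (q : ℕ) (hq : 1 ≤ q)
    (hs : ∑ i, a i + q = 3 * c) (hm : ¬ (q = 1 ∧ ∀ i, a i = 2 ∨ a i = 3)) :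
    ∏ i, a i ≤ 2 * 3 ^ (c - 1) - 1 := by
  obtain ⟨d, rfl⟩ : ∃ d, c = d + 1 := ⟨c - 1, by omega⟩
  have key : (∏ i, a i) < 2 * 3 ^ d := by
    by_contra hcon
    push Not at hcon
    have h1 : (2 * 3 ^ d) ^ 3 ≤ (∏ i, a i) ^ 3 := Nat.pow_le_pow_left hcon 3
    have e1 : (2 * 3 ^ d) ^ 3 = 8 * 3 ^ (3 * d) := by
      rw [mul_pow, ← pow_mul, mul_comm d 3]; norm_num
    have hpos : 0 < 3 ^ (3 * d) := by positivity
    by_cases hq1 : q = 1
    · have : ∃ j, a j ≠ 2 ∧ a j ≠ 3 := by
        by_contra hh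
        push Not at hh
        exact hm ⟨hq1, fun i => by
          by_cases h : a i = 2
          · exact Or.inl h
          · exact Or.inr (hh i h)⟩
      obtain ⟨j, h2, h3⟩ := this
      have h4 := a_prod_cube' a j h2 h3
      have e2 : ∑ i, a i = 3 * d + 2 := by omega
      rw [e2, pow_add] at h4
      rw [e1] at h1
      nlinarith
    · have h4 := a_prod_cube a
      have e2 : ∑ i, a i ≤ 3 * d + 1 := by omega
      have h5 : 3 ^ (∑ i, a i) ≤ 3 ^ (3 * d + 1) := Nat.pow_le_pow_right (by norm_num) e2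
      rw [pow_succ] at h5
      rw [e1] at h1
      nlinarith
  simp only [Nat.add_sub_cancel]
  omega

/-- main case: product equals `2 * 3^(c-1)` -/
theorem a_main {c : ℕ} (a : Fin c → ℕ)
    (hs : ∑ i, a i + 1 = 3 * c) (hm : ∀ i, a i = 2 ∨ a i = 3) :
    ∏ i, a i = 2 * 3 ^ (c - 1) := by
  classical
  have h1 : ∀ i, a i = 3 - (if a i = 2 then 1 else 0) := by
    intro i
    rcases hm i with h | h <;> simp [h]
  have h2 : ∑ i, a i + (univ.filter (fun i => a i = 2)).card = 3 * c := by
    rw [Finset.card_filter, ← Finset.sum_add_distrib]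
    have : ∀ i ∈ (univ : Finset (Fin c)), a i + (if a i = 2 then 1 else 0) = 3 := by
      intro i _
      rcases hm i with h | h <;> simp [h]
    rw [Finset.sum_congr rfl this]
    simp [mul_comm]
  have h3 : (univ.filter (fun i => a i = 2)).card = 1 := by omega
  obtain ⟨j, hj⟩ := Finset.card_eq_one.1 h3
  have hj2 : a j = 2 := by
    have : j ∈ univ.filter (fun i => a i = 2) := by rw [hj]; simp
    simpa using this
  rw [← Finset.mul_prod_erase univ _ (mem_univ j), hj2]
  have : ∀ i ∈ univ.erase j, a i = 3 := by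
    intro i hi
    rcases hm i with h | h
    · have : i ∈ univ.filter (fun i => a i = 2) := by simp [h]
      rw [hj] at this
      simp at this
      exact absurd this (Finset.ne_of_mem_erase hi)
    · exact h
  rw [Finset.prod_congr rfl this]
  simp

/-- number of colours assigned to star `i` -/
def cntA {c k : ℕ} (T : Fin k → Option (Fin c)) (i : Fin c) : ℕ :=
  (univ.filter (fun x => T x = some i)).card

/-- number of unassigned colours -/
def noneA {c k : ℕ} (T : Fin k → Option (Fin c)) : ℕ :=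
  (univ.filter (fun x => T x = none)).card

theorem a_sum_cnt {c k : ℕ} (T : Fin k → Option (Fin c)) :
    ∑ i, cntA T i + noneA T = k := by
  classical
  have h := Finset.card_eq_sum_card_fiberwise (f := T) (s := (univ : Finset (Fin k)))
    (t := (univ : Finset (Option (Fin c)))) (fun _ _ => mem_univ _)
  rw [Fintype.sum_option] at h
  simp only [card_univ, Fintype.card_fin] at h
  unfold cntA noneA
  omega

/-- the set of colorings with prescribed types and prescribed non-pure classes -/
def SA {E : Type} [Fintype E] [DecidableEq E] {c k : ℕ} (s : E → Fin c)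
    (T : Fin k → Option (Fin c)) (μ : Fin k → Finset E) : Finset (E → Fin k) :=
  univ.filter (fun D => (∀ x, T x = none → univ.filter (fun e => D e = x) = μ x) ∧
    ∀ e, T (D e) = none ∨ T (D e) = some (s e))

/-- the union of the prescribed non-pure classes -/
def UA {E : Type} [Fintype E] [DecidableEq E] {c k : ℕ}
    (T : Fin k → Option (Fin c)) (μ : Fin k → Finset E) : Finset E :=
  (univ.filter (fun x => T x = none)).biUnion μ

theorem a_count {E : Type} [Fintype E] [DecidableEq E] {c k : ℕ} (s : E → Fin c)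
    (T : Fin k → Option (Fin c)) (μ : Fin k → Finset E) :
    (SA s T μ).card ≤ ∏ e, (if e ∈ UA T μ then 1 else cntA T (s e)) := by
  classical
  have hex : ∀ e, e ∈ UA T μ → ∃ x, T x = none ∧ e ∈ μ x := by
    intro e he
    unfold UA at he
    simp only [mem_biUnion, mem_filter, mem_univ, true_and] at he
    exact he
  by_cases hk : IsEmpty (Fin k)
  · by_cases hE : IsEmpty E
    · have : (SA s T μ).card ≤ (univ : Finset (E → Fin k)).card := card_le_card (subset_univ _)
      refine this.trans ?_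
      simp
    · rw [not_isEmpty_iff] at hE
      obtain ⟨e⟩ := hE
      have : SA s T μ = ∅ := by
        apply Finset.eq_empty_of_forall_notMem
        intro D _
        exact hk.elim (D e)
      rw [this]; simp
  · rw [not_isEmpty_iff] at hk
    obtain ⟨x0⟩ := hk
    let d : E → Fin k := fun e => if h : e ∈ UA T μ then (hex e h).choose else x0
    have hd : ∀ e, e ∈ UA T μ → T (d e) = none ∧ e ∈ μ (d e) := by
      intro e he
      simp only [d, he, dif_pos]
      exact (hex e he).choose_spec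
    have hsub : SA s T μ ⊆ Fintype.piFinset
        (fun e => if e ∈ UA T μ then {d e} else univ.filter (fun x => T x = some (s e))) := by
      intro D hD
      unfold SA at hD
      simp only [mem_filter, mem_univ, true_and] at hD
      rw [Fintype.mem_piFinset]
      intro e
      by_cases he : e ∈ UA T μ
      · rw [if_pos he]
        obtain ⟨h1, h2⟩ := hd e he
        have := hD.1 (d e) h1
        rw [← this] at h2
        simpa using h2
      · rw [if_neg he]
        rcases hD.2 e with h | h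
        · exfalso
          apply he
          unfold UA
          simp only [mem_biUnion, mem_filter, mem_univ, true_and]
          refine ⟨D e, h, ?_⟩
          rw [← hD.1 (D e) h]
          simp
        · simp [h]
    refine (card_le_card hsub).trans ?_
    rw [Fintype.card_piFinset]
    apply le_of_eq
    apply Finset.prod_congr rfl
    intro e _
    by_cases he : e ∈ UA T μ
    · simp [he]
    · simp [he, cntA]

theorem a_fib {E : Type} [Fintype E] [DecidableEq E] {c : ℕ} (s : E → Fin c) (m : ℕ)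
    (hm : ∀ i, (univ.filter (fun e => s e = i)).card = m) (f : Fin c → ℕ) :
    ∏ e, f (s e) = (∏ i, f i) ^ m := by
  classical
  rw [← Finset.prod_fiberwise univ s (fun e => f (s e)), ← Finset.prod_pow]
  apply Finset.prod_congr rfl
  intro i _
  rw [← hm i, ← Finset.prod_const]
  apply Finset.prod_congr rfl
  intro e he
  simp only [mem_filter, mem_univ, true_and] at he
  rw [he]

theorem a_nonmain {E : Type} [Fintype E] [DecidableEq E] {c : ℕ} (hc : 1 ≤ c) (s : E → Fin c)
    (m L : ℕ) (hm : ∀ i, (univ.filter (fun e => s e = i)).card = m) (hmL : 3 * c * L < m)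
    (T : Fin (3 * c) → Option (Fin c)) (μ : Fin (3 * c) → Finset E) (hμ : ∀ x, (μ x).card ≤ L)
    (hq : 1 ≤ noneA T) (hn : ¬ (noneA T = 1 ∧ ∀ i, cntA T i = 2 ∨ cntA T i = 3)) :
    (SA s T μ).card ≤ (2 * 3 ^ (c - 1) - 1) ^ m := by
  classical
  refine (a_count s T μ).trans ?_
  have hUL : (UA T μ).card ≤ 3 * c * L := by
    unfold UA
    refine (Finset.card_biUnion_le_card_mul _ _ L (fun x _ => hμ x)).trans ?_
    apply Nat.mul_le_mul_right
    refine (card_le_card (subset_univ _)).trans ?_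
    simp
  by_cases h0 : ∃ i, cntA T i = 0
  · obtain ⟨i, hi⟩ := h0
    have : ∃ e, s e = i ∧ e ∉ UA T μ := by
      by_contra hcon
      push Not at hcon
      have hsub : univ.filter (fun e => s e = i) ⊆ UA T μ := by
        intro e he
        simp only [mem_filter, mem_univ, true_and] at he
        exact hcon e he
      have := card_le_card hsub
      rw [hm i] at this
      omega
    obtain ⟨e, he, heU⟩ := this
    have hz : ∏ e, (if e ∈ UA T μ then 1 else cntA T (s e)) = 0 := by
      apply Finset.prod_eq_zero (mem_univ e)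
      simp [heU, he, hi]
    rw [hz]
    exact Nat.zero_le _
  · push Not at h0
    have h1 : ∏ e, (if e ∈ UA T μ then 1 else cntA T (s e)) ≤ ∏ e, cntA T (s e) := by
      apply Finset.prod_le_prod'
      intro e _
      split_ifs
      · exact Nat.one_le_iff_ne_zero.2 (h0 _)
      · exact le_rfl
    refine h1.trans ?_
    rw [a_fib s m hm (cntA T)]
    apply Nat.pow_le_pow_left
    exact a_small hc (cntA T) (noneA T) hq (a_sum_cnt T) hn

theorem a_mainbd {E : Type} [Fintype E] [DecidableEq E] {c : ℕ} (s : E → Fin c)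
    (m : ℕ) (hm : ∀ i, (univ.filter (fun e => s e = i)).card = m)
    (T : Fin (3 * c) → Option (Fin c)) (M : Finset E)
    (hq : noneA T = 1) (hn : ∀ i, cntA T i = 2 ∨ cntA T i = 3) :
    ((SA s T (fun _ => M)).card : ℝ) ≤ (2 * 3 ^ (c - 1)) ^ m * (1 / 2 : ℝ) ^ M.card := by
  classical
  have h0 := a_count s T (fun _ => M)
  have hU : UA T (fun _ => M) = M := by
    unfold UA
    have hne : (univ.filter (fun x => T x = none)).Nonempty := by
      rw [← Finset.card_pos]
      unfold noneA at hq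
      omega
    ext e
    simp only [mem_biUnion]
    constructor
    · rintro ⟨x, _, h⟩; exact h
    · intro h
      obtain ⟨x, hx⟩ := hne
      exact ⟨x, hx, h⟩
  rw [hU] at h0
  have h1 : (∏ e, (if e ∈ M then 1 else cntA T (s e))) * 2 ^ M.card ≤
      (2 * 3 ^ (c - 1)) ^ m := by
    have h2 : 2 ^ M.card ≤ ∏ e, (if e ∈ M then cntA T (s e) else 1) := by
      rw [Finset.prod_ite_mem univ M (fun e => cntA T (s e)), univ_inter, ← Finset.prod_const]
      apply Finset.prod_le_prod'
      intro e _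
      rcases hn (s e) with h | h <;> omega
    calc (∏ e, (if e ∈ M then 1 else cntA T (s e))) * 2 ^ M.card
        ≤ (∏ e, (if e ∈ M then 1 else cntA T (s e))) *
          ∏ e, (if e ∈ M then cntA T (s e) else 1) := Nat.mul_le_mul_left _ h2
      _ = ∏ e, cntA T (s e) := by
          rw [← Finset.prod_mul_distrib]
          apply Finset.prod_congr rfl
          intro e _
          split_ifs <;> simp
      _ = (∏ i, cntA T i) ^ m := a_fib s m hm (cntA T)
      _ = (2 * 3 ^ (c - 1)) ^ m := by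
          rw [a_main (cntA T) (by have := a_sum_cnt T; omega) hn]
  have h3 : (((SA s T (fun _ => M)).card * 2 ^ M.card : ℕ) : ℝ) ≤
      (((2 * 3 ^ (c - 1)) ^ m : ℕ) : ℝ) := by
    exact_mod_cast (Nat.mul_le_mul_right _ h0).trans h1
  push_cast at h3
  rw [one_div, inv_pow]
  rw [← div_eq_mul_inv, le_div_iff₀ (by positivity)]
  exact h3

/-- the type of a colouring -/
theorem a_type {E : Type} [Fintype E] [DecidableEq E] {c k : ℕ} (hc : 1 ≤ c) (s : E → Fin c)
    (F : Finset (Finset E)) (D : E → Fin k) (hD : Mixed s F D) :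
    ∃ (T : Fin k → Option (Fin c)) (μ : Fin k → Finset E), 1 ≤ noneA T ∧ (∀ x, μ x ∈ F) ∧
      D ∈ SA s T μ := by
  classical
  obtain ⟨h1, h2⟩ := hD
  have hx : ∃ x : Fin k, ¬ Pure s (univ.filter (fun e => D e = x)) := by
    by_contra hcon
    push Not at hcon
    apply h2
    intro e f hef
    exact hcon (D f) e (by simp [hef]) f (by simp)
  obtain ⟨x0, hx0⟩ := hx
  let cl : Fin k → Finset E := fun x => univ.filter (fun e => D e = x)
  let T : Fin k → Option (Fin c) := fun x =>
    if Pure s (cl x) then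
      (if h : (cl x).Nonempty then some (s h.choose) else some ⟨0, hc⟩) else none
  let μ : Fin k → Finset E := fun x => if Pure s (cl x) then cl x0 else cl x
  have hTn : ∀ x, T x = none → ¬ Pure s (cl x) := by
    intro x hx hp
    simp only [T, hp, if_true] at hx
    split_ifs at hx
  have hTs : ∀ e, T (D e) = none ∨ T (D e) = some (s e) := by
    intro e
    by_cases hp : Pure s (cl (D e))
    · right
      have hne : (cl (D e)).Nonempty := ⟨e, by simp [cl]⟩
      simp only [T, hp, if_true, hne, dif_pos]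
      congr 1
      exact hp _ hne.choose_spec e (by simp [cl])
    · left
      simp only [T, hp, if_false]
  refine ⟨T, μ, ?_, ?_, ?_⟩
  · unfold noneA
    rw [Nat.one_le_iff_ne_zero, Ne, Finset.card_eq_zero]
    intro h
    have : x0 ∈ univ.filter (fun x => T x = none) := by
      simp only [mem_filter, mem_univ, true_and, T]
      have hx0' : ¬ Pure s (cl x0) := hx0
      simp only [hx0', if_false]
    rw [h] at this
    simp at this
  · intro x
    by_cases hp : Pure s (cl x)
    · simp only [μ, hp, if_true]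
      exact (h1 x0).resolve_left hx0
    · simp only [μ, hp, if_false]
      exact (h1 x).resolve_left hp
  · unfold SA
    simp only [mem_filter, mem_univ, true_and]
    refine ⟨?_, hTs⟩
    intro x hx
    have := hTn x hx
    simp only [μ, this, if_false, cl]

theorem a_total {E : Type} [Fintype E] [DecidableEq E] {c : ℕ} (hc : 1 ≤ c) (s : E → Fin c)
    (m L : ℕ) (hm : ∀ i, (univ.filter (fun e => s e = i)).card = m) (hmL : 3 * c * L < m)
    (F : Finset (Finset E)) (hF : ∀ M ∈ F, M.card ≤ L) :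
    (Nat.card {D : E → Fin (3 * c) // Mixed s F D} : ℝ) ≤
      (Phi c : ℝ) * (∑ M ∈ F, (1 / 2 : ℝ) ^ M.card) * (2 * 3 ^ (c - 1)) ^ m +
      ((c + 1 : ℕ) : ℝ) ^ (3 * c) * (F.card : ℝ) ^ (3 * c) *
        (((2 * 3 ^ (c - 1) - 1 : ℕ) : ℝ)) ^ m := by
  classical
  let mainT : Finset (Fin (3 * c) → Option (Fin c)) :=
    univ.filter (fun T => noneA T = 1 ∧ ∀ i, cntA T i = 2 ∨ cntA T i = 3)
  let restT : Finset (Fin (3 * c) → Option (Fin c)) :=
    univ.filter (fun T => 1 ≤ noneA T ∧ ¬ (noneA T = 1 ∧ ∀ i, cntA T i = 2 ∨ cntA T i = 3))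
  let A1 : Finset (E → Fin (3 * c)) :=
    mainT.biUnion (fun T => F.biUnion (fun M => SA s T (fun _ => M)))
  let A2 : Finset (E → Fin (3 * c)) :=
    restT.biUnion (fun T => (Fintype.piFinset (fun _ : Fin (3 * c) => F)).biUnion
      (fun μ => SA s T μ))
  have hsub : (univ.filter (fun D : E → Fin (3 * c) => Mixed s F D)) ⊆ A1 ∪ A2 := by
    intro D hD
    simp only [mem_filter, mem_univ, true_and] at hD
    obtain ⟨T, μ, hT, hμ, hS⟩ := a_type hc s F D hD
    rw [mem_union]
    by_cases hmain : noneA T = 1 ∧ ∀ i, cntA T i = 2 ∨ cntA T i = 3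
    · left
      simp only [A1, mem_biUnion]
      refine ⟨T, by simp only [mainT, mem_filter, mem_univ, true_and]; exact hmain, ?_⟩
      have hone := hmain.1
      unfold noneA at hone
      obtain ⟨x0, hx0⟩ := Finset.card_eq_one.1 hone
      refine ⟨μ x0, hμ x0, ?_⟩
      unfold SA at hS ⊢
      simp only [mem_filter, mem_univ, true_and] at hS ⊢
      refine ⟨?_, hS.2⟩
      intro x hx
      have : x ∈ univ.filter (fun x => T x = none) := by simp [hx]
      rw [hx0, mem_singleton] at this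
      rw [hS.1 x hx, this]
    · right
      simp only [A2, mem_biUnion]
      refine ⟨T, by simp only [restT, mem_filter, mem_univ, true_and]; exact ⟨hT, hmain⟩, μ, ?_, hS⟩
      rw [Fintype.mem_piFinset]
      exact hμ
  have hcard : Nat.card {D : E → Fin (3 * c) // Mixed s F D} =
      (univ.filter (fun D : E → Fin (3 * c) => Mixed s F D)).card := by
    rw [Nat.card_eq_fintype_card, Fintype.card_subtype]
  have hPhi : mainT.card = Phi c := by
    unfold Phi
    rw [Nat.card_eq_fintype_card, Fintype.card_subtype]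
    rfl
  rw [hcard]
  have hc1 : ((univ.filter (fun D : E → Fin (3 * c) => Mixed s F D)).card : ℝ) ≤
      (A1.card : ℝ) + (A2.card : ℝ) := by
    exact_mod_cast (card_le_card hsub).trans (card_union_le _ _)
  have hA1 : (A1.card : ℝ) ≤
      (Phi c : ℝ) * (∑ M ∈ F, (1 / 2 : ℝ) ^ M.card) * (2 * 3 ^ (c - 1)) ^ m := by
    have e1 : (A1.card : ℝ) ≤ ∑ T ∈ mainT, ∑ M ∈ F, ((SA s T (fun _ => M)).card : ℝ) := by
      have h1 : A1.card ≤ ∑ T ∈ mainT, (F.biUnion (fun M => SA s T (fun _ => M))).card :=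
        Finset.card_biUnion_le
      have h2 : ∑ T ∈ mainT, (F.biUnion (fun M => SA s T (fun _ => M))).card ≤
          ∑ T ∈ mainT, ∑ M ∈ F, (SA s T (fun _ => M)).card :=
        Finset.sum_le_sum (fun T _ => Finset.card_biUnion_le)
      exact_mod_cast h1.trans h2
    refine e1.trans ?_
    have e2 : ∀ T ∈ mainT, ∑ M ∈ F, ((SA s T (fun _ => M)).card : ℝ) ≤
        (∑ M ∈ F, (1 / 2 : ℝ) ^ M.card) * (2 * 3 ^ (c - 1)) ^ m := by
      intro T hT
      simp only [mainT, mem_filter, mem_univ, true_and] at hT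
      rw [Finset.sum_mul]
      apply Finset.sum_le_sum
      intro M _
      exact (a_mainbd s m hm T M hT.1 hT.2).trans (le_of_eq (mul_comm _ _))
    refine (Finset.sum_le_sum e2).trans ?_
    rw [Finset.sum_const, nsmul_eq_mul, hPhi, mul_assoc]
  have hA2 : (A2.card : ℝ) ≤ ((c + 1 : ℕ) : ℝ) ^ (3 * c) * (F.card : ℝ) ^ (3 * c) *
        (((2 * 3 ^ (c - 1) - 1 : ℕ) : ℝ)) ^ m := by
    have e1 : A2.card ≤ ∑ T ∈ restT, ∑ μ ∈ Fintype.piFinset (fun _ : Fin (3 * c) => F),
        (SA s T μ).card :=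
      Finset.card_biUnion_le.trans (Finset.sum_le_sum (fun T _ => Finset.card_biUnion_le))
    have e2 : ∑ T ∈ restT, ∑ μ ∈ Fintype.piFinset (fun _ : Fin (3 * c) => F),
        (SA s T μ).card ≤ ∑ T ∈ restT, ∑ μ ∈ Fintype.piFinset (fun _ : Fin (3 * c) => F),
        (2 * 3 ^ (c - 1) - 1) ^ m := by
      apply Finset.sum_le_sum
      intro T hT
      apply Finset.sum_le_sum
      intro μ hμ
      simp only [restT, mem_filter, mem_univ, true_and] at hT
      rw [Fintype.mem_piFinset] at hμ
      exact a_nonmain hc s m L hm hmL T μ (fun x => hF _ (hμ x)) hT.1 hT.2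
    have e3 : ∑ T ∈ restT, ∑ μ ∈ Fintype.piFinset (fun _ : Fin (3 * c) => F),
        (2 * 3 ^ (c - 1) - 1) ^ m ≤ (c + 1) ^ (3 * c) * F.card ^ (3 * c) *
          (2 * 3 ^ (c - 1) - 1) ^ m := by
      simp only [Finset.sum_const, smul_eq_mul, Fintype.card_piFinset_const]
      rw [← mul_assoc]
      apply Nat.mul_le_mul_right
      apply Nat.mul_le_mul_right
      refine (card_le_card (subset_univ _)).trans ?_
      rw [card_univ]
      simp
    exact_mod_cast (e1.trans e2).trans e3
  linarith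

theorem stA : StA := by
  intro c L hc R ε hε
  set X : ℕ := 2 * 3 ^ (c - 1) with hX
  have hXpos : 2 ≤ X := by
    have : 1 ≤ 3 ^ (c - 1) := Nat.one_le_pow _ _ (by norm_num)
    omega
  have hXr : (0 : ℝ) < (X : ℝ) := by exact_mod_cast (by omega : 0 < X)
  set K : ℝ := ((c + 1 : ℕ) : ℝ) ^ (3 * c) * (|R| * 2 ^ L) ^ (3 * c) with hK
  have hK0 : 0 ≤ K := by positivity
  have hlim : Filter.Tendsto (fun m : ℕ => K * (((X - 1 : ℕ) : ℝ) / (X : ℝ)) ^ m)
      Filter.atTop (nhds (K * 0)) := by
    apply Filter.Tendsto.const_mul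
    apply tendsto_pow_atTop_nhds_zero_of_lt_one
    · positivity
    · rw [div_lt_one hXr]
      exact_mod_cast (by omega : X - 1 < X)
  rw [mul_zero] at hlim
  have hev : ∀ᶠ m : ℕ in Filter.atTop, K * (((X - 1 : ℕ) : ℝ) / (X : ℝ)) ^ m < ε :=
    hlim.eventually (gt_mem_nhds hε)
  obtain ⟨m1, hm1⟩ := Filter.eventually_atTop.1 hev
  refine ⟨max m1 (3 * c * L + 1), ?_⟩
  intro m hm E _ _ s hs F hF hR
  have hmm1 : m1 ≤ m := (le_max_left _ _).trans hm
  have hmL : 3 * c * L < m := by
    have := (le_max_right m1 (3 * c * L + 1)).trans hm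
    omega
  have htot := a_total hc s m L hs hmL F hF
  have hsum0 : 0 ≤ ∑ M ∈ F, (1 / 2 : ℝ) ^ M.card := Finset.sum_nonneg (fun _ _ => by positivity)
  have hR0 : 0 ≤ R := hsum0.trans hR
  have hFc : (F.card : ℝ) ≤ |R| * 2 ^ L := by
    have h1 : (F.card : ℝ) * (1 / 2) ^ L ≤ ∑ M ∈ F, (1 / 2 : ℝ) ^ M.card := by
      rw [← nsmul_eq_mul, ← Finset.sum_const]
      apply Finset.sum_le_sum
      intro M hM
      exact pow_le_pow_of_le_one (by norm_num) (by norm_num) (hF M hM)
    have h2 : (F.card : ℝ) * (1 / 2) ^ L ≤ |R| := h1.trans (hR.trans (le_abs_self R))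
    have h3 : (F.card : ℝ) = (F.card : ℝ) * (1 / 2) ^ L * 2 ^ L := by
      rw [mul_assoc, ← mul_pow]; norm_num
    rw [h3]
    exact mul_le_mul_of_nonneg_right h2 (by positivity)
  have hXm : (0 : ℝ) < (X : ℝ) ^ m := by positivity
  have hsecond : ((c + 1 : ℕ) : ℝ) ^ (3 * c) * (F.card : ℝ) ^ (3 * c) *
        (((X - 1 : ℕ) : ℝ)) ^ m ≤ ε * (X : ℝ) ^ m := by
    have h1 : ((c + 1 : ℕ) : ℝ) ^ (3 * c) * (F.card : ℝ) ^ (3 * c) ≤ K := by
      rw [hK]
      apply mul_le_mul_of_nonneg_left _ (by positivity)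
      exact pow_le_pow_left₀ (by positivity) hFc _
    have h2 := (hm1 m hmm1).le
    rw [div_pow] at h2
    have h3 : K * (((X - 1 : ℕ) : ℝ)) ^ m ≤ ε * (X : ℝ) ^ m := by
      rw [← mul_div_assoc, div_le_iff₀ hXm] at h2
      exact h2
    exact (mul_le_mul_of_nonneg_right h1 (by positivity)).trans h3
  have hfirst : (Phi c : ℝ) * (∑ M ∈ F, (1 / 2 : ℝ) ^ M.card) * (X : ℝ) ^ m ≤
      (Phi c : ℝ) * R * (X : ℝ) ^ m := by
    apply mul_le_mul_of_nonneg_right _ hXm.le
    exact mul_le_mul_of_nonneg_left hR (by positivity)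
  have hXc : ((X : ℕ) : ℝ) = 2 * 3 ^ (c - 1) := by rw [hX]; push_cast; ring
  rw [hXc] at hfirst hsecond
  rw [← hX] at htot
  calc (Nat.card {D : E → Fin (3 * c) // Mixed s F D} : ℝ) ≤ _ := htot
    _ ≤ (Phi c : ℝ) * R * (2 * 3 ^ (c - 1)) ^ m + ε * (2 * 3 ^ (c - 1)) ^ m :=
        add_le_add hfirst hsecond
    _ = ((Phi c : ℝ) * R + ε) * (2 * 3 ^ (c - 1)) ^ m := by ring

end R132.KC
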