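import Pool.Agent.R132.KC.Defs

namespace R132.KC

open Finset

attribute [local instance] Classical.propDecidable

theorem bl_miss {E : Type} [Fintype E] [DecidableEq E] {k : ℕ} (A : E → Finset (Fin k)) (x : Fin k)
    (Q : Finset E) (N : ℕ) (hN : N ≤ Q.card)
    (hQ : ∀ e ∈ Q, x ∈ A e ∧ (A e).card ≤ 3) :
    (∏ e, (((A e).erase x).card : ℝ)) ≤ (2 / 3 : ℝ) ^ N * ∏ e, ((A e).card : ℝ) := by
  have h1 : ∀ e, (((A e).erase x).card : ℝ) ≤ (if e ∈ Q then (2 / 3 : ℝ) else 1) * (A e).card := by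
    intro e
    by_cases he : e ∈ Q
    · obtain ⟨hx, h3⟩ := hQ e he
      rw [if_pos he, Finset.card_erase_of_mem hx]
      have hpos : 1 ≤ (A e).card := Finset.card_pos.mpr ⟨x, hx⟩
      rw [Nat.cast_sub hpos]
      have : ((A e).card : ℝ) ≤ 3 := by exact_mod_cast h3
      push_cast
      linarith
    · rw [if_neg he, one_mul]
      exact_mod_cast Finset.card_erase_le
  calc (∏ e, (((A e).erase x).card : ℝ))
      ≤ ∏ e, ((if e ∈ Q then (2 / 3 : ℝ) else 1) * (A e).card) :=
        Finset.prod_le_prod (fun e _ => by positivity) (fun e _ => h1 e)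
    _ = (∏ e, (if e ∈ Q then (2 / 3 : ℝ) else 1)) * ∏ e, ((A e).card : ℝ) :=
        Finset.prod_mul_distrib
    _ ≤ (2 / 3 : ℝ) ^ N * ∏ e, ((A e).card : ℝ) := by
        apply mul_le_mul_of_nonneg_right _ (by positivity)
        rw [Finset.prod_ite, Finset.prod_const, Finset.prod_const_one, mul_one]
        apply pow_le_pow_of_le_one (by norm_num) (by norm_num)
        have : (univ.filter (fun e => e ∈ Q)) = Q := by ext; simp
        rw [this]; exact hN

theorem bl_surj {E : Type} [Fintype E] [DecidableEq E] {k : ℕ} (A : E → Finset (Fin k)) (Y : Finset (Fin k))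
    (N : ℕ)
    (h : ∀ x ∈ Y, ∃ Q : Finset E, N ≤ Q.card ∧ ∀ e ∈ Q, x ∈ A e ∧ (A e).card ≤ 3) :
    (1 - (k : ℝ) * (2 / 3) ^ N) * ∏ e, ((A e).card : ℝ) ≤
      (((Fintype.piFinset A).filter (fun D => ∀ x ∈ Y, ∃ e, D e = x)).card : ℝ) := by
  have hsub : Fintype.piFinset A ⊆
      ((Fintype.piFinset A).filter (fun D => ∀ x ∈ Y, ∃ e, D e = x)) ∪
      Y.biUnion (fun x => Fintype.piFinset (fun e => (A e).erase x)) := by
    intro D hD
    by_cases hs : ∀ x ∈ Y, ∃ e, D e = x
    · exact Finset.mem_union_left _ (Finset.mem_filter.mpr ⟨hD, hs⟩)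
    · push Not at hs
      obtain ⟨x, hx, hne⟩ := hs
      apply Finset.mem_union_right
      rw [Finset.mem_biUnion]
      refine ⟨x, hx, ?_⟩
      rw [Fintype.mem_piFinset] at hD ⊢
      intro e
      exact Finset.mem_erase.mpr ⟨hne e, hD e⟩
  have hcard := Finset.card_le_card hsub
  have h2 := hcard.trans (Finset.card_union_le _ _)
  have h3 : (Y.biUnion (fun x => Fintype.piFinset (fun e => (A e).erase x))).card ≤
      ∑ x ∈ Y, (Fintype.piFinset (fun e => (A e).erase x)).card := Finset.card_biUnion_le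
  have h4 : ((Fintype.piFinset A).card : ℝ) ≤
      (((Fintype.piFinset A).filter (fun D => ∀ x ∈ Y, ∃ e, D e = x)).card : ℝ) +
      ∑ x ∈ Y, ((Fintype.piFinset (fun e => (A e).erase x)).card : ℝ) := by
    exact_mod_cast h2.trans (Nat.add_le_add_left h3 _)
  have h5 : ∑ x ∈ Y, ((Fintype.piFinset (fun e => (A e).erase x)).card : ℝ) ≤
      (k : ℝ) * ((2 / 3) ^ N * ∏ e, ((A e).card : ℝ)) := by
    have hY : ∀ x ∈ Y, ((Fintype.piFinset (fun e => (A e).erase x)).card : ℝ) ≤
        (2 / 3) ^ N * ∏ e, ((A e).card : ℝ) := by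
      intro x hx
      obtain ⟨Q, hN, hQ⟩ := h x hx
      rw [Fintype.card_piFinset]
      push_cast
      exact bl_miss A x Q N hN hQ
    calc ∑ x ∈ Y, ((Fintype.piFinset (fun e => (A e).erase x)).card : ℝ)
        ≤ ∑ x ∈ Y, ((2 / 3) ^ N * ∏ e, ((A e).card : ℝ)) := Finset.sum_le_sum hY
      _ = (Y.card : ℝ) * ((2 / 3) ^ N * ∏ e, ((A e).card : ℝ)) := by
          rw [Finset.sum_const, nsmul_eq_mul]
      _ ≤ (k : ℝ) * ((2 / 3) ^ N * ∏ e, ((A e).card : ℝ)) := by
          apply mul_le_mul_of_nonneg_right _ (by positivity)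
          have := Finset.card_le_univ Y
          rw [Fintype.card_fin] at this
          exact_mod_cast this
  rw [Fintype.card_piFinset] at h4
  push_cast at h4
  linarith

/-- product over all edges of a function of the star -/
theorem bl_prod {E : Type} [Fintype E] {c m : ℕ} (s : E → Fin c)
    (hm : ∀ i, (univ.filter (fun e => s e = i)).card = m) (a : Fin c → ℝ) :
    ∏ e, a (s e) = (∏ i, a i) ^ m := by
  rw [← Finset.prod_fiberwise (s := (univ : Finset E)) (g := s) (f := fun e => a (s e)),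
    ← Finset.prod_pow]
  apply Finset.prod_congr rfl
  intro i _
  rw [← hm i, ← Finset.prod_const]
  apply Finset.prod_congr rfl
  intro e he
  rw [(Finset.mem_filter.mp he).2]

/-- two-or-three lemma -/
theorem bl_23 {c : ℕ} (hc : 1 ≤ c) (a : Fin c → ℕ) (h : ∀ i, a i = 2 ∨ a i = 3)
    (hs : ∑ i, a i = 3 * c - 1) : ∏ i, (a i : ℝ) = 2 * 3 ^ (c - 1) := by
  have h1 : ∑ i, a i + (univ.filter (fun i => a i = 2)).card = 3 * c := by
    rw [Finset.card_filter, ← Finset.sum_add_distrib]
    rw [show 3 * c = ∑ i : Fin c, 3 by simp [mul_comm]]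
    apply Finset.sum_congr rfl
    intro i _
    rcases h i with h | h <;> simp [h]
  have h2 : (univ.filter (fun i => a i = 2)).card = 1 := by omega
  have h3 : ∏ i, (a i : ℝ) = ∏ i, (if a i = 2 then (2 : ℝ) else 3) := by
    apply Finset.prod_congr rfl
    intro i _
    rcases h i with h | h <;> simp [h]
  rw [h3, Finset.prod_ite, Finset.prod_const, Finset.prod_const, h2]
  have h4 : (univ.filter (fun i => ¬ a i = 2)).card = c - 1 := by
    have := Finset.card_filter_add_card_filter_not (s := (univ : Finset (Fin c)))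
      (fun i => a i = 2)
    rw [h2, Finset.card_univ, Fintype.card_fin] at this
    omega
  rw [h4]; norm_num

end R132.KC
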