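import Pool.Agent.R132.KC.BL

namespace R132.KC

open Finset Filter

attribute [local instance] Classical.propDecidable

theorem bl_tend (k : ℕ) : Tendsto (fun N : ℕ => (k : ℝ) * (2 / 3 : ℝ) ^ N) atTop (nhds 0) := by
  have := (tendsto_pow_atTop_nhds_zero_of_lt_one (r := (2 / 3 : ℝ)) (by norm_num)
    (by norm_num)).const_mul (k : ℝ)
  simpa using this

theorem stL : StL := by
  intro c hc
  obtain ⟨m0, hm0⟩ := (((bl_tend (3 * c)).eventually (gt_mem_nhds (show (0 : ℝ) < 1 / 4 by norm_num)))).exists_forall_of_atTop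
  refine ⟨m0, ?_⟩
  intro m hm E _ _ s hs
  have hsmall := hm0 m hm
  set PT : Finset (Fin (3 * c) → Fin c) :=
    univ.filter (fun T => ∀ i, (univ.filter (fun x => T x = i)).card = 3) with hPT
  have hPhi : Phi3 c = PT.card := by
    unfold Phi3
    rw [Nat.card_eq_fintype_card, Fintype.card_subtype]
  set Z : Finset (E → Fin (3 * c)) := univ.filter (fun D => Sep s D) with hZ
  have hZc : Nat.card {D : E → Fin (3 * c) // Sep s D} = Z.card := by
    rw [Nat.card_eq_fintype_card, Fintype.card_subtype]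
  rw [hZc, hPhi]
  let A : (Fin (3 * c) → Fin c) → E → Finset (Fin (3 * c)) :=
    fun T e => univ.filter (fun x => T x = s e)
  let S' : (Fin (3 * c) → Fin c) → Finset (E → Fin (3 * c)) := fun T =>
    (Fintype.piFinset (A T)).filter (fun D => ∀ x ∈ (univ : Finset (Fin (3 * c))), ∃ e, D e = x)
  have hdisj : ∀ T ∈ PT, ∀ T' ∈ PT, T ≠ T' → Disjoint (S' T) (S' T') := by
    intro T _ T' _ hne
    rw [Finset.disjoint_left]
    intro D hD hD'
    apply hne
    funext x
    obtain ⟨h1, h2⟩ := Finset.mem_filter.mp hD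
    obtain ⟨h1', _⟩ := Finset.mem_filter.mp hD'
    obtain ⟨e, he⟩ := h2 x (Finset.mem_univ x)
    have a1 := (Finset.mem_filter.mp ((Fintype.mem_piFinset.mp h1) e)).2
    have a2 := (Finset.mem_filter.mp ((Fintype.mem_piFinset.mp h1') e)).2
    rw [he] at a1 a2
    rw [a1, a2]
  have hsub : PT.biUnion S' ⊆ Z := by
    intro D hD
    obtain ⟨T, _, hDT⟩ := Finset.mem_biUnion.mp hD
    obtain ⟨h1, _⟩ := Finset.mem_filter.mp hDT
    rw [hZ, Finset.mem_filter]
    refine ⟨Finset.mem_univ _, ?_⟩
    intro e f hef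
    have a1 := (Finset.mem_filter.mp ((Fintype.mem_piFinset.mp h1) e)).2
    have a2 := (Finset.mem_filter.mp ((Fintype.mem_piFinset.mp h1) f)).2
    rw [← a1, ← a2, hef]
  have hle := Finset.card_le_card hsub
  rw [Finset.card_biUnion hdisj] at hle
  have hle' : ∑ T ∈ PT, ((S' T).card : ℝ) ≤ (Z.card : ℝ) := by exact_mod_cast hle
  refine le_trans ?_ hle'
  have hT : ∀ T ∈ PT, (3 / 4 : ℝ) * 3 ^ (c * m) ≤ ((S' T).card : ℝ) := by
    intro T hT
    have hT3 : ∀ i, (univ.filter (fun x => T x = i)).card = 3 := (Finset.mem_filter.mp hT).2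
    have := bl_surj (A T) univ m (by
      intro x _
      refine ⟨univ.filter (fun e => s e = T x), le_of_eq (hs (T x)).symm, ?_⟩
      intro e he
      have he' : s e = T x := (Finset.mem_filter.mp he).2
      refine ⟨?_, ?_⟩
      · exact Finset.mem_filter.mpr ⟨Finset.mem_univ _, he'.symm⟩
      · exact le_of_eq (hT3 (s e)))
    refine le_trans ?_ this
    have hprod : ∏ e, ((A T e).card : ℝ) = 3 ^ (c * m) := by
      have h1 : ∀ e, ((A T e).card : ℝ) = 3 := by
        intro e
        have := hT3 (s e)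
        exact_mod_cast this
      rw [Finset.prod_congr rfl (fun e _ => h1 e)]
      rw [bl_prod s hs (fun _ => 3)]
      rw [Finset.prod_const, Finset.card_univ, Fintype.card_fin, ← pow_mul]
    rw [hprod]
    apply mul_le_mul_of_nonneg_right _ (by positivity)
    have : ((3 * c : ℕ) : ℝ) * (2 / 3) ^ m < 1 / 4 := hsmall
    linarith
  calc (3 / 4 : ℝ) * (PT.card : ℝ) * 3 ^ (c * m) = ∑ T ∈ PT, (3 / 4 : ℝ) * 3 ^ (c * m) := by
        rw [Finset.sum_const, nsmul_eq_mul]; ring
    _ ≤ _ := Finset.sum_le_sum hT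

theorem stB : StB := by
  intro c L hc ε hε
  obtain ⟨N0, hN0⟩ := (((bl_tend (3 * c)).eventually (gt_mem_nhds hε))).exists_forall_of_atTop
  refine ⟨N0 + L, ?_⟩
  intro m hm E _ _ s hs F hF
  have hsmall := hN0 (m - L) (by omega)
  set PT : Finset (Fin (3 * c) → Option (Fin c)) :=
    univ.filter (fun T => (univ.filter (fun x => T x = none)).card = 1 ∧
      ∀ i, (univ.filter (fun x => T x = some i)).card = 2 ∨
        (univ.filter (fun x => T x = some i)).card = 3) with hPT
  have hPhi : Phi c = PT.card := by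
    unfold Phi
    rw [Nat.card_eq_fintype_card, Fintype.card_subtype]
  set Z : Finset (E → Fin (3 * c)) := univ.filter (fun D => Mixed s F D) with hZ
  have hZc : Nat.card {D : E → Fin (3 * c) // Mixed s F D} = Z.card := by
    rw [Nat.card_eq_fintype_card, Fintype.card_subtype]
  rw [hZc, hPhi]
  let A : ((Fin (3 * c) → Option (Fin c)) × Finset E) → E → Finset (Fin (3 * c)) :=
    fun p e => if e ∈ p.2 then univ.filter (fun x => p.1 x = none)
      else univ.filter (fun x => p.1 x = some (s e))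
  let Y : (Fin (3 * c) → Option (Fin c)) → Finset (Fin (3 * c)) :=
    fun T => univ.filter (fun x => T x ≠ none)
  let S' : ((Fin (3 * c) → Option (Fin c)) × Finset E) → Finset (E → Fin (3 * c)) := fun p =>
    (Fintype.piFinset (A p)).filter (fun D => ∀ x ∈ Y p.1, ∃ e, D e = x)
  -- basic facts on members of S'
  have hin : ∀ p : (Fin (3 * c) → Option (Fin c)) × Finset E, ∀ D ∈ S' p, ∀ e,
      (e ∈ p.2 → p.1 (D e) = none) ∧ (e ∉ p.2 → p.1 (D e) = some (s e)) := by
    intro p D hD e
    obtain ⟨h1, _⟩ := Finset.mem_filter.mp hD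
    have h3 := (Fintype.mem_piFinset.mp h1) e
    constructor
    · intro he
      simp only [A, if_pos he, Finset.mem_filter] at h3
      exact h3.2
    · intro he
      simp only [A, if_neg he, Finset.mem_filter] at h3
      exact h3.2
  have hin2 : ∀ p : (Fin (3 * c) → Option (Fin c)) × Finset E, ∀ D ∈ S' p, ∀ e,
      (p.1 (D e) = none → e ∈ p.2) := by
    intro p D hD e h
    by_contra he
    have := (hin p D hD e).2 he
    rw [h] at this
    exact absurd this (by simp)
  have huniq : ∀ T ∈ PT, ∃ x0, ∀ x, T x = none ↔ x = x0 := by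
    intro T hT
    have h1 := (Finset.mem_filter.mp hT).2.1
    obtain ⟨x0, hx0⟩ := Finset.card_eq_one.mp h1
    refine ⟨x0, ?_⟩
    intro x
    have : x ∈ univ.filter (fun x => T x = none) ↔ x ∈ ({x0} : Finset (Fin (3 * c))) := by
      rw [hx0]
    simpa using this
  have hclass : ∀ p ∈ PT ×ˢ F, ∀ D ∈ S' p, ∀ x0, p.1 x0 = none →
      univ.filter (fun e => D e = x0) = p.2 := by
    intro p hp D hD x0 hx0
    obtain ⟨hp1, hp2⟩ := Finset.mem_product.mp hp
    obtain ⟨x1, hx1⟩ := huniq p.1 hp1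
    have hx01 : x0 = x1 := (hx1 x0).mp hx0
    ext e
    rw [Finset.mem_filter]
    constructor
    · rintro ⟨_, he⟩
      exact hin2 p D hD e (by rw [he]; exact hx0)
    · intro he
      refine ⟨Finset.mem_univ _, ?_⟩
      have := (hin p D hD e).1 he
      rw [hx01]
      exact (hx1 _).mp this
  have hpure : ∀ p ∈ PT ×ˢ F, ∀ D ∈ S' p, ∀ x, p.1 x ≠ none →
      Pure s (univ.filter (fun e => D e = x)) := by
    intro p hp D hD x hx e he f hf
    rw [Finset.mem_filter] at he hf
    have hen : e ∉ p.2 := by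
      intro h
      apply hx
      rw [← he.2]
      exact (hin p D hD e).1 h
    have hfn : f ∉ p.2 := by
      intro h
      apply hx
      rw [← hf.2]
      exact (hin p D hD f).1 h
    have h1 := (hin p D hD e).2 hen
    have h2 := (hin p D hD f).2 hfn
    rw [he.2] at h1
    rw [hf.2] at h2
    rw [h1] at h2
    exact Option.some_injective _ h2
  have hdisj : ∀ p ∈ PT ×ˢ F, ∀ p' ∈ PT ×ˢ F, p ≠ p' → Disjoint (S' p) (S' p') := by
    intro p hp p' hp' hne
    rw [Finset.disjoint_left]
    intro D hD hD'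
    apply hne
    obtain ⟨hp1, hp2⟩ := Finset.mem_product.mp hp
    obtain ⟨hp1', hp2'⟩ := Finset.mem_product.mp hp'
    obtain ⟨x0, hx0⟩ := huniq p.1 hp1
    have hx0n : p.1 x0 = none := (hx0 x0).mpr rfl
    have hcl := hclass p hp D hD x0 hx0n
    have hx0' : p'.1 x0 = none := by
      by_contra h
      have := hpure p' hp' D hD' x0 h
      rw [hcl] at this
      exact (hF _ hp2).2 this
    have hcl' := hclass p' hp' D hD' x0 hx0'
    have h2 : p.2 = p'.2 := by rw [← hcl, ← hcl']
    have h1 : p.1 = p'.1 := by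
      obtain ⟨x1, hx1⟩ := huniq p'.1 hp1'
      have hx01 : x0 = x1 := (hx1 x0).mp hx0'
      funext x
      by_cases hx : x = x0
      · rw [hx, hx0n, hx0']
      · have hxn : p.1 x ≠ none := fun h => hx ((hx0 x).mp h)
        obtain ⟨_, hsur⟩ := Finset.mem_filter.mp hD
        obtain ⟨e, he⟩ := hsur x (Finset.mem_filter.mpr ⟨Finset.mem_univ _, hxn⟩)
        have hen : e ∉ p.2 := by
          intro h
          apply hxn
          rw [← he]
          exact (hin p D hD e).1 h
        have a1 := (hin p D hD e).2 hen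
        have a2 := (hin p' D hD' e).2 (h2 ▸ hen)
        rw [he] at a1 a2
        rw [a1, a2]
    exact Prod.ext h1 h2
  have hsub : (PT ×ˢ F).biUnion S' ⊆ Z := by
    intro D hD
    obtain ⟨p, hp, hDp⟩ := Finset.mem_biUnion.mp hD
    obtain ⟨hp1, hp2⟩ := Finset.mem_product.mp hp
    rw [hZ, Finset.mem_filter]
    refine ⟨Finset.mem_univ _, ?_, ?_⟩
    · intro x
      by_cases hx : p.1 x = none
      · right
        rw [hclass p hp D hDp x hx]
        exact hp2
      · left
        exact hpure p hp D hDp x hx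
    · intro hsep
      apply (hF _ hp2).2
      obtain ⟨x0, hx0⟩ := huniq p.1 hp1
      have hcl := hclass p hp D hDp x0 ((hx0 x0).mpr rfl)
      intro e he f hf
      rw [← hcl, Finset.mem_filter] at he hf
      exact hsep e f (he.2.trans hf.2.symm)
  have hle := Finset.card_le_card hsub
  rw [Finset.card_biUnion hdisj] at hle
  have hle' : ∑ p ∈ PT ×ˢ F, ((S' p).card : ℝ) ≤ (Z.card : ℝ) := by exact_mod_cast hle
  refine le_trans ?_ hle'
  have hT : ∀ p ∈ PT ×ˢ F, (1 / 3 : ℝ) ^ p.2.card * ((1 - ε) * (2 * 3 ^ (c - 1)) ^ m) ≤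
      ((S' p).card : ℝ) := by
    intro p hp
    obtain ⟨hp1, hp2⟩ := Finset.mem_product.mp hp
    obtain ⟨hL, hnp⟩ := hF _ hp2
    by_cases hε1 : ε ≤ 1
    swap
    · push Not at hε1
      have hneg : (1 / 3 : ℝ) ^ p.2.card * ((1 - ε) * (2 * 3 ^ (c - 1)) ^ m) ≤ 0 := by
        have : (1 / 3 : ℝ) ^ p.2.card * ((1 - ε) * (2 * 3 ^ (c - 1)) ^ m) =
          (1 - ε) * ((1 / 3 : ℝ) ^ p.2.card * (2 * 3 ^ (c - 1)) ^ m) := by ring
        rw [this]
        exact mul_nonpos_of_nonpos_of_nonneg (by linarith) (by positivity)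
      exact hneg.trans (Nat.cast_nonneg _)
    have hT1 := (Finset.mem_filter.mp hp1).2.1
    have hT23 := (Finset.mem_filter.mp hp1).2.2
    have key := bl_surj (A p) (Y p.1) (m - L) (by
      intro x hx
      have hxn : p.1 x ≠ none := (Finset.mem_filter.mp hx).2
      obtain ⟨i, hi⟩ := Option.ne_none_iff_exists'.mp hxn
      refine ⟨(univ.filter (fun e => s e = i)) \ p.2, ?_, ?_⟩
      · have h1 := Finset.le_card_sdiff p.2 (univ.filter (fun e => s e = i))
        rw [hs i] at h1
        omega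
      · intro e he
        rw [Finset.mem_sdiff, Finset.mem_filter] at he
        simp only [A, if_neg he.2]
        refine ⟨Finset.mem_filter.mpr ⟨Finset.mem_univ _, ?_⟩, ?_⟩
        · rw [he.1.2, hi]
        · rcases hT23 (s e) with h | h <;> omega)
    refine le_trans ?_ key
    -- the product
    set a : Fin c → ℕ := fun i => (univ.filter (fun x => p.1 x = some i)).card with ha
    have hsum : ∑ i, a i = 3 * c - 1 := by
      have h1 : (univ.filter (fun x : Fin (3 * c) => p.1 x = none)).card +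
          ∑ i, a i = 3 * c := by
        have h2 := Finset.card_eq_sum_card_fiberwise (f := p.1)
          (s := (univ : Finset (Fin (3 * c)))) (t := (univ : Finset (Option (Fin c))))
          (fun _ _ => Finset.mem_coe.mpr (Finset.mem_univ _))
        rw [Finset.card_univ, Fintype.card_fin, Fintype.sum_option] at h2
        exact h2.symm
      omega
    have hX : ∏ e, (a (s e) : ℝ) = (2 * 3 ^ (c - 1)) ^ m := by
      rw [bl_prod s hs (fun i => (a i : ℝ)), bl_23 hc a hT23 hsum]
    have hAe : ∀ e, (1 / 3 : ℝ) ^ (if e ∈ p.2 then 1 else 0) * (a (s e) : ℝ) ≤ ((A p e).card : ℝ) := by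
      intro e
      by_cases he : e ∈ p.2
      · simp only [A, if_pos he]
        rw [hT1]
        have : (a (s e) : ℝ) ≤ 3 := by
          rcases hT23 (s e) with h | h
          · have : a (s e) ≤ 3 := by simp only [ha]; omega
            exact_mod_cast this
          · have : a (s e) ≤ 3 := by simp only [ha]; omega
            exact_mod_cast this
        push_cast
        linarith
      · simp only [A, if_neg he]
        simp [ha]
    have hprod : (1 / 3 : ℝ) ^ p.2.card * (2 * 3 ^ (c - 1)) ^ m ≤ ∏ e, ((A p e).card : ℝ) := by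
      calc (1 / 3 : ℝ) ^ p.2.card * (2 * 3 ^ (c - 1)) ^ m
          = ∏ e, ((1 / 3 : ℝ) ^ (if e ∈ p.2 then 1 else 0) * (a (s e) : ℝ)) := by
            rw [Finset.prod_mul_distrib, hX, Finset.prod_pow_eq_pow_sum]
            congr 2
            rw [Finset.sum_ite_mem, Finset.univ_inter, Finset.sum_const, smul_eq_mul, mul_one]
        _ ≤ _ := Finset.prod_le_prod
            (fun e _ => mul_nonneg (pow_nonneg (by norm_num) _) (Nat.cast_nonneg _)) (fun e _ => hAe e)
    have hpos : 0 ≤ ∏ e, ((A p e).card : ℝ) := Finset.prod_nonneg (fun e _ => Nat.cast_nonneg _)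
    have h1 : (1 - ε) * ∏ e, ((A p e).card : ℝ) ≤
        (1 - ((3 * c : ℕ) : ℝ) * (2 / 3) ^ (m - L)) * ∏ e, ((A p e).card : ℝ) := by
      apply mul_le_mul_of_nonneg_right _ hpos
      have : ((3 * c : ℕ) : ℝ) * (2 / 3) ^ (m - L) < ε := hsmall
      linarith
    refine le_trans ?_ h1
    calc (1 / 3 : ℝ) ^ p.2.card * ((1 - ε) * (2 * 3 ^ (c - 1)) ^ m)
        = (1 - ε) * ((1 / 3 : ℝ) ^ p.2.card * (2 * 3 ^ (c - 1)) ^ m) := by ring
      _ ≤ _ := mul_le_mul_of_nonneg_left hprod (by linarith)
  calc (PT.card : ℝ) * (∑ M ∈ F, (1 / 3 : ℝ) ^ M.card) * (1 - ε) * (2 * 3 ^ (c - 1)) ^ m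
      = ∑ p ∈ PT ×ˢ F, (1 / 3 : ℝ) ^ p.2.card * ((1 - ε) * (2 * 3 ^ (c - 1)) ^ m) := by
        rw [← Finset.sum_mul, Finset.sum_product]
        simp only [Finset.sum_const, nsmul_eq_mul]
        ring
    _ ≤ _ := Finset.sum_le_sum hT

end R132.KC
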