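import Pool.Agent.R132.KC.Defs

/-! Module C: structure of hypergraphs with many colorings. -/

set_option autoImplicit false

namespace R132.KC

open Finset

/-- (l+1)-sets: the intersection of two different ones has at most l elements. -/
theorem c_inter_card {n l : ℕ} {e f : Finset (Fin n)} (he : e.card = l + 1) (hf : f.card = l + 1)
    (hef : e ≠ f) : (e ∩ f).card ≤ l := by
  by_contra h
  have h1 : e ∩ f = e := eq_of_subset_of_card_le inter_subset_left (by lia)
  have h2 : e ∩ f = f := eq_of_subset_of_card_le inter_subset_right (by lia)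
  exact hef (h1.symm.trans h2)

theorem c_two {n l : ℕ} {e f t : Finset (Fin n)} (he : e.card = l + 1) (hf : f.card = l + 1)
    (hef : e ≠ f) (ht : t.card = l) (hte : t ⊆ e) (htf : t ⊆ f) : t = e ∩ f :=
  eq_of_subset_of_card_le (subset_inter hte htf) (by rw [ht]; exact c_inter_card he hf hef)

/-- a large intersecting family has a centre -/
theorem c_center {n l : ℕ} {G : Finset (Finset (Fin n))} (hG : ∀ g ∈ G, g.card = l + 1)
    (hI : ∀ g ∈ G, ∀ h ∈ G, l ≤ (g ∩ h).card) (hc : l + 3 ≤ G.card) :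
    ∃ K : Finset (Fin n), K.card = l ∧ ∀ g ∈ G, K ⊆ g := by
  obtain ⟨e, he, f, hf, hef⟩ := one_lt_card.1 (show 1 < G.card by lia)
  have hK : (e ∩ f).card = l := le_antisymm (c_inter_card (hG e he) (hG f hf) hef) (hI e he f hf)
  have hW : (e ∪ f).card = l + 2 := by
    have := card_union_add_card_inter e f
    rw [hG e he, hG f hf, hK] at this
    lia
  have hout : ∀ g ∈ G, ¬ g ⊆ e ∪ f → g ∩ (e ∪ f) = e ∩ f := by
    intro g hg hgW
    have h1 : (g ∩ (e ∪ f)).card ≤ l := by
      by_contra h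
      apply hgW
      have h2 : g ∩ (e ∪ f) = g := eq_of_subset_of_card_le inter_subset_left
        (by rw [hG g hg]; lia)
      rw [← h2]
      exact inter_subset_right
    have h2 : g ∩ e = g ∩ (e ∪ f) := eq_of_subset_of_card_le
      (inter_subset_inter_left subset_union_left) (h1.trans (hI g hg e he))
    have h3 : g ∩ f = g ∩ (e ∪ f) := eq_of_subset_of_card_le
      (inter_subset_inter_left subset_union_right) (h1.trans (hI g hg f hf))
    apply eq_of_subset_of_card_le
    · apply subset_inter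
      · rw [← h2]; exact inter_subset_right
      · rw [← h3]; exact inter_subset_right
    · rw [hK, ← h2]; exact hI g hg e he
  by_contra hcon
  have h0 : ∃ g0 ∈ G, ¬ (e ∩ f) ⊆ g0 := by
    by_contra h
    exact hcon ⟨e ∩ f, hK, fun g hg => by
      by_contra h'
      exact h ⟨g, hg, h'⟩⟩
  obtain ⟨g0, hg0, hKg0⟩ := h0
  have hg0W : g0 ⊆ e ∪ f := by
    by_contra h
    apply hKg0
    rw [← hout g0 hg0 h]
    exact inter_subset_left
  have hall : ∀ h ∈ G, h ⊆ e ∪ f := by
    intro h hh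
    by_contra hW'
    have h1 := hout h hh hW'
    have h2 : h ∩ g0 ⊆ (e ∩ f) ∩ g0 := by
      intro z hz
      rw [mem_inter] at hz
      rw [← h1]
      exact mem_inter.2 ⟨mem_inter.2 ⟨hz.1, hg0W hz.2⟩, hz.2⟩
    have h3 : ((e ∩ f) ∩ g0).card < (e ∩ f).card := by
      apply card_lt_card
      refine ⟨inter_subset_left, fun h' => hKg0 ?_⟩
      exact h'.trans inter_subset_right
    have h4 := card_le_card h2
    have h5 := hI h hh g0 hg0
    lia
  have h6 : G ⊆ powersetCard (l + 1) (e ∪ f) := fun g hg =>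
    mem_powersetCard.2 ⟨hall g hg, hG g hg⟩
  have h7 := card_le_card h6
  rw [card_powersetCard, hW, Nat.choose_succ_self_right] at h7
  lia

/-- the supersets of an l-set with l+1 elements -/
theorem c_sup {n l : ℕ} {t : Finset (Fin n)} (ht : t.card = l) :
    ((powersetCard (l + 1) (univ : Finset (Fin n))).filter (fun e => t ⊆ e)).card = n - l := by
  have h1 : (powersetCard (l + 1) (univ : Finset (Fin n))).filter (fun e => t ⊆ e)
      = tᶜ.image (fun x => insert x t) := by
    ext e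
    simp only [mem_filter, mem_powersetCard, subset_univ, true_and, mem_image, mem_compl]
    constructor
    · rintro ⟨he, hte⟩
      have h2 : (e \ t).card = 1 := by
        rw [card_sdiff_of_subset hte, he, ht]; lia
      obtain ⟨x, hx⟩ := card_eq_one.1 h2
      have hxe : x ∈ e \ t := by rw [hx]; exact mem_singleton_self x
      refine ⟨x, (mem_sdiff.1 hxe).2, ?_⟩
      rw [← sdiff_union_of_subset hte, hx]
      rfl
    · rintro ⟨x, hx, rfl⟩
      exact ⟨by rw [card_insert_of_notMem hx, ht], subset_insert _ _⟩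
  rw [h1, card_image_of_injOn, card_compl, Fintype.card_fin, ht]
  intro x hx y hy hxy
  simp only [coe_compl, Set.mem_compl_iff, mem_coe] at hx hy
  have h2 : x ∈ insert y t := by
    rw [← (show insert x t = insert y t from hxy)]; exact mem_insert_self x t
  rcases mem_insert.1 h2 with h | h
  · exact h
  · exact absurd h hx

theorem c_deg_le {n l : ℕ} {H : Finset (Finset (Fin n))} (hH : ∀ e ∈ H, e.card = l + 1)
    {t : Finset (Fin n)} (ht : t.card = l) : (H.filter (fun e => t ⊆ e)).card ≤ n - l := by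
  rw [← c_sup ht]
  apply card_le_card
  intro e he
  rw [mem_filter] at he ⊢
  exact ⟨mem_powersetCard.2 ⟨subset_univ _, hH e he.1⟩, he.2⟩

theorem c_deg_eq {n l : ℕ} {H : Finset (Finset (Fin n))} (hH : ∀ e ∈ H, e.card = l + 1)
    {t : Finset (Fin n)} (ht : t.card = l) (h : n - l ≤ (H.filter (fun e => t ⊆ e)).card)
    {e : Finset (Fin n)} (he : e.card = l + 1) (hte : t ⊆ e) : e ∈ H := by
  have h1 : H.filter (fun e => t ⊆ e) =
      (powersetCard (l + 1) (univ : Finset (Fin n))).filter (fun e => t ⊆ e) := by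
    apply eq_of_subset_of_card_le
    · intro e he
      rw [mem_filter] at he ⊢
      exact ⟨mem_powersetCard.2 ⟨subset_univ _, hH e he.1⟩, he.2⟩
    · rwa [c_sup ht]
  have h2 : e ∈ H.filter (fun e => t ⊆ e) := by
    rw [h1, mem_filter]
    exact ⟨mem_powersetCard.2 ⟨subset_univ _, he⟩, hte⟩
  exact (mem_filter.1 h2).1

/-- abstract counting of maps -/
theorem c_count {E : Type} [Fintype E] [DecidableEq E] {k : ℕ} (Z : Finset (Fin k))
    (S : Finset (Finset E)) (hS : ∅ ∈ S) (A : E → Finset (Fin k)) (𝒟 : Finset (E → Fin k))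
    (h1 : ∀ D ∈ 𝒟, ∀ x ∈ Z, univ.filter (fun e => D e = x) ∈ S)
    (h2 : ∀ D ∈ 𝒟, ∀ e, D e ∈ Z ∨ D e ∈ A e) :
    𝒟.card ≤ S.card ^ k * ∏ e, max 1 (A e).card := by
  classical
  rcases 𝒟.eq_empty_or_nonempty with h0 | ⟨D0, hD0⟩
  · rw [h0]; simp
  -- replace empty sets by singletons
  let A' : E → Finset (Fin k) := fun e => if (A e).Nonempty then A e else {D0 e}
  have hA'ne : ∀ e, (A' e).Nonempty := by
    intro e
    by_cases h : (A e).Nonempty
    · simp only [A', if_pos h]; exact h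
    · simp only [A', if_neg h]; exact singleton_nonempty _
  choose d hd using hA'ne
  have hA'card : ∀ e, (A' e).card = max 1 (A e).card := by
    intro e
    by_cases h : (A e).Nonempty
    · simp only [A', if_pos h]
      have := card_pos.2 h
      lia
    · simp only [A', if_neg h, card_singleton]
      rw [not_nonempty_iff_eq_empty.1 h]; simp
  have hAA' : ∀ e, A e ⊆ A' e := by
    intro e x hx
    have h : (A e).Nonempty := ⟨x, hx⟩
    simp only [A', if_pos h]; exact hx
  let Φ : (E → Fin k) → (Fin k → Finset E) × (E → Fin k) := fun D =>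
    (fun x => if x ∈ Z then univ.filter (fun e => D e = x) else ∅,
      fun e => if D e ∈ A' e then D e else d e)
  have hcard : ((Fintype.piFinset fun _ : Fin k => S) ×ˢ (Fintype.piFinset A')).card
      = S.card ^ k * ∏ e, max 1 (A e).card := by
    rw [card_product, Fintype.card_piFinset, Fintype.card_piFinset]
    simp [hA'card]
  rw [← hcard]
  apply card_le_card_of_injOn Φ
  · intro D hD
    simp only [coe_product, Set.mem_prod, mem_coe, Fintype.mem_piFinset]
    constructor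
    · intro x
      simp only [Φ]
      split_ifs with h
      · exact h1 D hD x h
      · exact hS
    · intro e
      simp only [Φ]
      split_ifs with h
      · exact h
      · exact hd e
  · intro D hD D' hD' hDD
    simp only [Φ, Prod.mk.injEq] at hDD
    obtain ⟨h3, h4⟩ := hDD
    have hcl : ∀ x ∈ Z, ∀ e, D e = x ↔ D' e = x := by
      intro x hx e
      have h5 := congrFun h3 x
      simp only [if_pos hx] at h5
      have h6 : e ∈ univ.filter (fun e => D e = x) ↔ e ∈ univ.filter (fun e => D' e = x) := by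
        rw [h5]
      simpa using h6
    funext e
    by_cases hZ : D e ∈ Z
    · exact ((hcl _ hZ e).1 rfl).symm
    · by_cases hZ' : D' e ∈ Z
      · exact (hcl _ hZ' e).2 rfl
      · have h5 := congrFun h4 e
        have h6 : D e ∈ A' e := hAA' e ((h2 D hD e).resolve_left hZ)
        have h7 : D' e ∈ A' e := hAA' e ((h2 D' hD' e).resolve_left hZ')
        simpa only [if_pos h6, if_pos h7] using h5

theorem c_count0 {E : Type} [Fintype E] [DecidableEq E] {k : ℕ} (A : E → Finset (Fin k))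
    (𝒟 : Finset (E → Fin k)) (h2 : ∀ D ∈ 𝒟, ∀ e, D e ∈ A e) :
    𝒟.card ≤ ∏ e, (A e).card := by
  classical
  rw [← Fintype.card_piFinset]
  exact card_le_card fun D hD => Fintype.mem_piFinset.2 (h2 D hD)

theorem c_small {E : Type} [Fintype E] [DecidableEq E] (d : ℕ) :
    ((univ : Finset (Finset E)).filter (fun s => s.card < d)).card
      ≤ d * (Fintype.card E + 1) ^ d := by
  have h1 : (univ : Finset (Finset E)).filter (fun s => s.card < d) =
      (range d).biUnion (fun i => powersetCard i (univ : Finset E)) := by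
    ext s
    simp
  rw [h1]
  refine card_biUnion_le.trans ?_
  calc ∑ i ∈ range d, (powersetCard i (univ : Finset E)).card
      ≤ ∑ i ∈ range d, (Fintype.card E + 1) ^ d := by
        apply sum_le_sum
        intro i hi
        rw [card_powersetCard, card_univ]
        refine (Nat.choose_le_pow _ _).trans ?_
        refine (Nat.pow_le_pow_left (Nat.le_succ _) i).trans ?_
        exact Nat.pow_le_pow_right (Nat.succ_pos _) (mem_range.1 hi).le
    _ = _ := by rw [sum_const, card_range, smul_eq_mul]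


section assign
variable {n l k : ℕ} {H : Finset (Finset (Fin n))}

/-- valid colorings -/
def c_valid (l : ℕ) (D : {e // e ∈ H} → Fin k) : Prop :=
  ∀ e f : {e // e ∈ H}, D e = D f → l ≤ (e.1 ∩ f.1).card

/-- the heavy centres -/
def c_T (k l : ℕ) (H : Finset (Finset (Fin n))) : Finset (Finset (Fin n)) :=
  (powersetCard l (univ : Finset (Fin n))).filter
    (fun t => k * (l + 3) ≤ (H.filter (fun e => t ⊆ e)).card)

/-- the class of the colour `x` -/
def c_cls (D : {e // e ∈ H} → Fin k) (x : Fin k) : Finset {e // e ∈ H} :=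
  univ.filter (fun e => D e = x)

open Classical in
/-- the assignment of the centres to the colours -/
noncomputable def c_Th (l : ℕ) (D : {e // e ∈ H} → Fin k) (x : Fin k) :
    Option (Finset (Fin n)) :=
  if h : ∃ t ∈ c_T k l H, l + 3 ≤ (c_cls D x).card ∧ ∀ e, D e = x → t ⊆ e.1 then
    some h.choose else none

theorem c_mem_T {t : Finset (Fin n)} : t ∈ c_T k l H ↔
    t.card = l ∧ k * (l + 3) ≤ (H.filter (fun e => t ⊆ e)).card := by
  simp [c_T, mem_powersetCard]

theorem c_P1 {D : {e // e ∈ H} → Fin k} {x : Fin k} {t : Finset (Fin n)}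
    (h : c_Th l D x = some t) : t ∈ c_T k l H ∧ ∀ e, D e = x → t ⊆ e.1 := by
  unfold c_Th at h
  split_ifs at h with h1
  have h2 := h1.choose_spec
  rw [Option.some.injEq] at h
  rw [h] at h2
  exact ⟨h2.1, h2.2.2⟩

theorem c_card_val (s : Finset {e // e ∈ H}) :
    (s.map (Function.Embedding.subtype _)).card = s.card := card_map _

theorem c_deg_sub (t : Finset (Fin n)) :
    (univ.filter (fun e : {e // e ∈ H} => t ⊆ e.1)).card = (H.filter (fun e => t ⊆ e)).card := by
  rw [← card_map (Function.Embedding.subtype _)]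
  congr 1
  ext e
  simp only [mem_map, mem_filter, mem_univ, true_and, Function.Embedding.subtype_apply,
    Subtype.exists, exists_and_left, exists_prop]
  constructor
  · rintro ⟨a, h1, h2, rfl⟩; exact ⟨h2, h1⟩
  · rintro ⟨h1, h2⟩; exact ⟨e, h2, h1, rfl⟩

theorem c_cls_center (hH : ∀ e ∈ H, e.card = l + 1) {D : {e // e ∈ H} → Fin k}
    (hD : c_valid l D) {x : Fin k} (hc : l + 3 ≤ (c_cls D x).card) :
    ∃ K : Finset (Fin n), K.card = l ∧ ∀ e, D e = x → K ⊆ e.1 := by
  obtain ⟨K, hK, h⟩ := c_center (l := l) (G := (c_cls D x).map (Function.Embedding.subtype _))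
    (by
      intro g hg
      obtain ⟨e, _, rfl⟩ := mem_map.1 hg
      exact hH _ e.2)
    (by
      intro g hg g' hg'
      obtain ⟨e, he, rfl⟩ := mem_map.1 hg
      obtain ⟨f, hf, rfl⟩ := mem_map.1 hg'
      have h1 : D e = x := (mem_filter.1 he).2
      have h2 : D f = x := (mem_filter.1 hf).2
      exact hD e f (h1.trans h2.symm))
    (by rw [card_map]; exact hc)
  refine ⟨K, hK, fun e he => h e.1 (mem_map.2 ⟨e, mem_filter.2 ⟨mem_univ _, he⟩, rfl⟩)⟩

theorem c_P2 (hH : ∀ e ∈ H, e.card = l + 1) {D : {e // e ∈ H} → Fin k}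
    (hD : c_valid l D) {x : Fin k} (h : c_Th l D x = none) :
    (c_cls D x).card < k * (l + 3) := by
  by_contra hc
  have hk : 1 ≤ k := Nat.one_le_iff_ne_zero.2 (fun h0 => by subst h0; exact x.elim0)
  have h1 : l + 3 ≤ (c_cls D x).card := le_trans (Nat.le_mul_of_pos_left _ hk) (not_lt.1 hc)
  obtain ⟨K, hK, hKe⟩ := c_cls_center hH hD h1
  have h2 : K ∈ c_T k l H := by
    rw [c_mem_T]
    refine ⟨hK, (not_lt.1 hc).trans ?_⟩
    rw [← c_deg_sub]
    apply card_le_card
    intro e he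
    exact mem_filter.2 ⟨mem_univ _, hKe e (mem_filter.1 he).2⟩
  unfold c_Th at h
  rw [dif_pos ⟨K, h2, h1, hKe⟩] at h
  exact absurd h (by simp)

theorem c_P3 (hH : ∀ e ∈ H, e.card = l + 1) {D : {e // e ∈ H} → Fin k}
    (hD : c_valid l D) (hk : 1 ≤ k) {t : Finset (Fin n)} (ht : t ∈ c_T k l H) :
    ∃ x, c_Th l D x = some t := by
  have ht' := c_mem_T.1 ht
  rw [← c_deg_sub] at ht'
  have hne : (univ : Finset (Fin k)).Nonempty := ⟨⟨0, hk⟩, mem_univ _⟩
  obtain ⟨x, -, hx⟩ := exists_le_card_fiber_of_mul_le_card_of_maps_to (f := D)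
    (s := univ.filter (fun e : {e // e ∈ H} => t ⊆ e.1)) (t := (univ : Finset (Fin k)))
    (n := l + 3) (fun _ _ => mem_univ _) hne (by rw [card_univ, Fintype.card_fin]; exact ht'.2)
  have h1 : l + 3 ≤ (c_cls D x).card := by
    refine hx.trans (card_le_card ?_)
    intro e he
    exact mem_filter.2 ⟨mem_univ _, (mem_filter.1 he).2⟩
  obtain ⟨K, hK, hKe⟩ := c_cls_center hH hD h1
  obtain ⟨e, he, f, hf, hef⟩ := one_lt_card.1 (show 1 < (filter (fun x_1 => D x_1 = x)
    (univ.filter (fun e : {e // e ∈ H} => t ⊆ e.1))).card by lia)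
  rw [mem_filter, mem_filter] at he hf
  have hef' : e.1 ≠ f.1 := fun h => hef (Subtype.ext h)
  have h2 : t = e.1 ∩ f.1 := c_two (hH _ e.2) (hH _ f.2) hef' ht'.1 he.1.2 hf.1.2
  have h3 : K = e.1 ∩ f.1 := c_two (hH _ e.2) (hH _ f.2) hef' hK (hKe e he.2) (hKe f hf.2)
  have h4 : ∃ t ∈ c_T k l H, l + 3 ≤ (c_cls D x).card ∧ ∀ e, D e = x → t ⊆ e.1 := by
    refine ⟨t, ht, h1, fun g hg => ?_⟩
    rw [h2, ← h3]
    exact hKe g hg
  refine ⟨x, ?_⟩
  have h5 : c_Th l D x = some h4.choose := by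
    unfold c_Th
    rw [dif_pos h4]
  have h6 := c_P1 h5
  have h7 : h4.choose = e.1 ∩ f.1 := c_two (hH _ e.2) (hH _ f.2) hef' (c_mem_T.1 h6.1).1
    (h6.2 e he.2) (h6.2 f hf.2)
  rw [h5, h7, ← h2]

end assign

section bounds
variable {n l k : ℕ} {H : Finset (Finset (Fin n))}

/-- number of colours of the centre t -/
def c_a (θ : Fin k → Option (Finset (Fin n))) (t : Finset (Fin n)) : ℕ :=
  (univ.filter (fun x => θ x = some t)).card

/-- the allowed colours of the edge e -/
def c_A (T : Finset (Finset (Fin n))) (θ : Fin k → Option (Finset (Fin n)))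
    (e : Finset (Fin n)) : Finset (Fin k) :=
  (T.filter (fun t => t ⊆ e)).biUnion (fun t => univ.filter (fun x => θ x = some t))

theorem c_union {e t t' : Finset (Fin n)} (he : e.card = l + 1) (ht : t.card = l)
    (ht' : t'.card = l) (hne : t ≠ t') (hte : t ⊆ e) (hte' : t' ⊆ e) : t ∪ t' = e := by
  apply eq_of_subset_of_card_le (union_subset hte hte')
  rw [he]
  by_contra h
  have h1 : t = t ∪ t' := eq_of_subset_of_card_le subset_union_left (by rw [ht]; lia)
  have h2 : t' = t ∪ t' := eq_of_subset_of_card_le subset_union_right (by rw [ht']; lia)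
  exact hne (h1.trans h2.symm)

theorem c_E2 {T : Finset (Finset (Fin n))} (hH : ∀ e ∈ H, e.card = l + 1)
    (hT : ∀ t ∈ T, t.card = l) :
    (univ.filter (fun e : {e // e ∈ H} => 2 ≤ (T.filter (fun t => t ⊆ e.1)).card)).card
      ≤ T.card ^ 2 := by
  rw [← card_map (Function.Embedding.subtype _), sq, ← card_product]
  refine le_trans (card_le_card ?_) (card_image_le (f := fun p => p.1 ∪ p.2))
  intro g hg
  obtain ⟨e, he, rfl⟩ := mem_map.1 hg
  have h2 := (mem_filter.1 he).2
  obtain ⟨t, ht, t', ht', hne⟩ := one_lt_card.1 (show 1 < _ from h2)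
  rw [mem_filter] at ht ht'
  exact mem_image.2 ⟨(t, t'), mem_product.2 ⟨ht.1, ht'.1⟩,
    c_union (hH _ e.2) (hT t ht.1) (hT t' ht'.1) hne ht.2 ht'.2⟩

theorem c_deg_prod (T : Finset (Finset (Fin n))) (a : Finset (Fin n) → ℕ) :
    ∏ e : {e // e ∈ H}, ∏ t ∈ T.filter (fun t => t ⊆ e.1), a t =
      ∏ t ∈ T, a t ^ (H.filter (fun e => t ⊆ e)).card := by
  simp only [prod_filter]
  rw [prod_comm]
  apply prod_congr rfl
  intro t _
  rw [← prod_filter, prod_const, c_deg_sub]

theorem c_B1 {T : Finset (Finset (Fin n))} (hH : ∀ e ∈ H, e.card = l + 1)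
    (hT : ∀ t ∈ T, t.card = l) (hTk : T.card ≤ k) (hk : 1 ≤ k)
    {θ : Fin k → Option (Finset (Fin n))} (hθ : ∀ t ∈ T, 1 ≤ c_a θ t) :
    ∏ e : {e // e ∈ H}, max 1 (c_A T θ e.1).card ≤
      k ^ (k ^ 2) * (∏ t ∈ T, c_a θ t) ^ (n - l) := by
  have h1 : ∀ e : {e // e ∈ H}, max 1 (c_A T θ e.1).card ≤
      (if 2 ≤ (T.filter (fun t => t ⊆ e.1)).card then k else 1) *
        ∏ t ∈ T.filter (fun t => t ⊆ e.1), c_a θ t := by
    intro e
    have hpos : 1 ≤ ∏ t ∈ T.filter (fun t => t ⊆ e.1), c_a θ t :=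
      Nat.one_le_iff_ne_zero.2 (prod_ne_zero_iff.2 fun t ht =>
        Nat.one_le_iff_ne_zero.1 (hθ t (mem_filter.1 ht).1))
    split_ifs with h
    · have h2 : (c_A T θ e.1).card ≤ k := by
        have := card_le_univ (c_A T θ e.1)
        rwa [Fintype.card_fin] at this
      calc max 1 (c_A T θ e.1).card ≤ k := max_le hk h2
        _ = k * 1 := (mul_one k).symm
        _ ≤ _ := Nat.mul_le_mul_left _ hpos
    · rw [one_mul]
      apply max_le hpos
      have h3 : (T.filter (fun t => t ⊆ e.1)).card = 0 ∨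
          (T.filter (fun t => t ⊆ e.1)).card = 1 := by lia
      rcases h3 with h3 | h3
      · rw [card_eq_zero] at h3
        simp [c_A, h3]
      · obtain ⟨t, ht⟩ := card_eq_one.1 h3
        simp [c_A, ht, c_a]
  calc ∏ e : {e // e ∈ H}, max 1 (c_A T θ e.1).card
      ≤ ∏ e : {e // e ∈ H}, ((if 2 ≤ (T.filter (fun t => t ⊆ e.1)).card then k else 1) *
        ∏ t ∈ T.filter (fun t => t ⊆ e.1), c_a θ t) := prod_le_prod' fun e _ => h1 e
    _ = k ^ (univ.filter (fun e : {e // e ∈ H} => 2 ≤ (T.filter (fun t => t ⊆ e.1)).card)).card *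
        ∏ t ∈ T, c_a θ t ^ (H.filter (fun e => t ⊆ e)).card := by
        rw [prod_mul_distrib, c_deg_prod, ← prod_filter, prod_const]
    _ ≤ k ^ (k ^ 2) * ∏ t ∈ T, c_a θ t ^ (n - l) := by
        apply Nat.mul_le_mul
        · apply Nat.pow_le_pow_right hk
          exact (c_E2 hH hT).trans (Nat.pow_le_pow_left hTk 2)
        · apply prod_le_prod' fun t ht => ?_
          exact Nat.pow_le_pow_right (hθ t ht) (c_deg_le hH (hT t ht))
    _ = _ := by rw [prod_pow]

theorem c_cube {a : ℕ} : a ^ 3 ≤ 3 ^ a ∧ (a ≠ 3 → a ^ 3 < 3 ^ a) := by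
  have h4 : ∀ b : ℕ, (b + 4) ^ 3 < 3 ^ (b + 4) := by
    intro b
    induction b with
    | zero => norm_num
    | succ b ih =>
      have : (b + 1 + 4) ^ 3 ≤ 3 * (b + 4) ^ 3 := by
        ring_nf
        nlinarith [sq_nonneg (b : ℕ), Nat.zero_le (b ^ 3), Nat.zero_le (b ^ 2)]
      calc (b + 1 + 4) ^ 3 ≤ 3 * (b + 4) ^ 3 := this
        _ < 3 * 3 ^ (b + 4) := by lia
        _ = 3 ^ (b + 1 + 4) := by ring
  rcases Nat.lt_or_ge a 4 with h | h
  · interval_cases a <;> norm_num
  · obtain ⟨b, rfl⟩ := Nat.exists_eq_add_of_le h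
    have := h4 b
    rw [add_comm 4 b]
    exact ⟨this.le, fun _ => this⟩

theorem c_prod_lt {ι : Type} {T : Finset ι} {a : ι → ℕ} {c : ℕ} (ha : ∀ t ∈ T, 1 ≤ a t)
    (hs : ∑ t ∈ T, a t ≤ 3 * c) (hne : ¬ (T.card = c ∧ ∀ t ∈ T, a t = 3)) :
    ∏ t ∈ T, a t ≤ 3 ^ c - 1 := by
  have key : ∏ t ∈ T, a t < 3 ^ c := by
    by_cases h : ∀ t ∈ T, a t = 3
    · have h1 : T.card ≠ c := fun h' => hne ⟨h', h⟩
      rw [sum_congr rfl h, sum_const, smul_eq_mul] at hs
      rw [prod_congr rfl h, prod_const]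
      exact Nat.pow_lt_pow_right (by norm_num) (by lia)
    · obtain ⟨t0, ht0, h0⟩ : ∃ t0 ∈ T, a t0 ≠ 3 := by
        by_contra hc
        exact h fun t ht => by
          by_contra h'
          exact hc ⟨t, ht, h'⟩
      have h1 : ∏ t ∈ T, a t ^ 3 < ∏ t ∈ T, 3 ^ a t := by
        apply prod_lt_prod
        · intro t ht
          have := ha t ht
          positivity
        · intro t _
          exact c_cube.1
        · exact ⟨t0, ht0, c_cube.2 h0⟩
      rw [prod_pow, prod_pow_eq_pow_sum] at h1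
      have h2 : (∏ t ∈ T, a t) ^ 3 < (3 ^ c) ^ 3 := by
        refine h1.trans_le ?_
        rw [← pow_mul]
        exact Nat.pow_le_pow_right (by norm_num) (by lia)
      exact lt_of_pow_lt_pow_left₀ 3 (by positivity) h2
  lia

theorem c_sum_a (T : Finset (Finset (Fin n))) (θ : Fin k → Option (Finset (Fin n))) :
    ∑ t ∈ T, c_a θ t ≤ k ∧ (∑ t ∈ T, c_a θ t = k → ∀ x, ∃ t ∈ T, θ x = some t) := by
  have h1 : ∑ t ∈ T, c_a θ t =
      (T.biUnion (fun t => univ.filter (fun x : Fin k => θ x = some t))).card := by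
    rw [card_biUnion]
    · rfl
    · intro t _ t' _ hne
      rw [Function.onFun, disjoint_left]
      intro x hx hx'
      rw [mem_filter] at hx hx'
      exact hne (Option.some.inj (hx.2.symm.trans hx'.2))
  constructor
  · rw [h1]
    have := card_le_univ (T.biUnion (fun t => univ.filter (fun x : Fin k => θ x = some t)))
    rwa [Fintype.card_fin] at this
  · intro h x
    rw [h1] at h
    have h2 : T.biUnion (fun t => univ.filter (fun x : Fin k => θ x = some t)) = univ := by
      rw [← card_eq_iff_eq_univ, h, Fintype.card_fin]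
    have h3 : x ∈ T.biUnion (fun t => univ.filter (fun x : Fin k => θ x = some t)) := by
      rw [h2]; exact mem_univ x
    obtain ⟨t, ht, hx⟩ := mem_biUnion.1 h3
    exact ⟨t, ht, (mem_filter.1 hx).2⟩

/-- the number of main assignments -/
theorem c_main_card {c : ℕ} (T : Finset (Finset (Fin n))) (hTc : T.card = c) :
    ((Fintype.piFinset fun _ : Fin (3 * c) => insertNone T).filter
      (fun θ => ∀ t ∈ T, c_a θ t = 3)).card ≤ Phi3 c := by
  classical
  let e := T.equivFinOfCardEq hTc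
  have h1 : Phi3 c = (univ.filter (fun T' : Fin (3 * c) → Fin c =>
      ∀ i, (univ.filter (fun x => T' x = i)).card = 3)).card := by
    unfold Phi3
    rw [Nat.card_eq_fintype_card, Fintype.card_subtype]
  rw [h1]
  refine le_trans (card_le_card ?_) (card_image_le (f := fun T' : Fin (3 * c) → Fin c =>
    (fun x => some (e.symm (T' x)).1 : Fin (3 * c) → Option (Finset (Fin n)))))
  intro θ hθ
  rw [mem_filter] at hθ
  have h2 : ∑ t ∈ T, c_a θ t = 3 * c := by
    rw [sum_congr rfl hθ.2, sum_const, hTc, smul_eq_mul, mul_comm]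
  have h3 := (c_sum_a T θ).2 h2
  choose τ hτ1 hτ2 using h3
  rw [mem_image]
  refine ⟨fun x => e ⟨τ x, hτ1 x⟩, ?_, ?_⟩
  · rw [mem_filter]
    refine ⟨mem_univ _, fun i => ?_⟩
    refine Eq.trans ?_ (hθ.2 (e.symm i).1 (e.symm i).2)
    unfold c_a
    congr 1
    ext x
    simp only [mem_filter, mem_univ, true_and]
    rw [hτ2 x, Option.some.injEq]
    constructor
    · intro h; rw [← h, Equiv.symm_apply_apply]
    · intro h
      have : (⟨τ x, hτ1 x⟩ : {t // t ∈ T}) = e.symm i := Subtype.ext h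
      rw [this, Equiv.apply_symm_apply]
  · funext x
    rw [Equiv.symm_apply_apply, hτ2 x]

theorem c_phi_pos (c : ℕ) : 1 ≤ Phi3 c := by
  classical
  unfold Phi3
  rw [Nat.card_eq_fintype_card, Nat.one_le_iff_ne_zero]
  refine @Fintype.card_ne_zero _ _ ⟨⟨fun x => (finProdFinEquiv.symm x).2, fun i => ?_⟩⟩
  have h1 : (univ.filter (fun x : Fin (3 * c) => (finProdFinEquiv.symm x).2 = i)).card =
      ((univ : Finset (Fin 3)) ×ˢ {i}).card := by
    apply card_bij (fun x _ => finProdFinEquiv.symm x)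
    · intro x hx
      rw [mem_filter] at hx
      rw [mem_product, mem_singleton]
      exact ⟨mem_univ _, hx.2⟩
    · intro x _ y _ h
      exact finProdFinEquiv.symm.injective h
    · intro p hp
      rw [mem_product, mem_singleton] at hp
      exact ⟨finProdFinEquiv p, mem_filter.2 ⟨mem_univ _, by
        rw [Equiv.symm_apply_apply]; exact hp.2⟩, Equiv.symm_apply_apply _ _⟩
  rw [h1]
  simp

/-- the main bound -/
theorem c_main_bound {c : ℕ} {T : Finset (Finset (Fin n))} (hTc : T.card = c)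
    (hH : ∀ e ∈ H, e.card = l + 1) (hT : ∀ t ∈ T, t.card = l)
    (hbad : ¬ ((∀ e : {e // e ∈ H}, (T.filter (fun t => t ⊆ e.1)).card = 1) ∧
      ∀ t ∈ T, n - l ≤ (H.filter (fun e => t ⊆ e)).card)) :
    3 * ∏ e : {e // e ∈ H}, (3 * (T.filter (fun t => t ⊆ e.1)).card) ≤
      2 * 3 ^ (c * (n - l)) := by
  set j : {e // e ∈ H} → ℕ := fun e => (T.filter (fun t => t ⊆ e.1)).card with hj
  have hsum : ∑ e, j e = ∑ t ∈ T, (H.filter (fun e => t ⊆ e)).card := by
    simp only [hj, card_filter]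
    rw [sum_comm]
    apply sum_congr rfl
    intro t _
    rw [← card_filter, ← card_filter, c_deg_sub]
  have hle : ∑ t ∈ T, (H.filter (fun e => t ⊆ e)).card ≤ c * (n - l) := by
    rw [← hTc, ← smul_eq_mul, ← sum_const]
    exact sum_le_sum fun t ht => c_deg_le hH (hT t ht)
  have h3j : ∀ i : ℕ, 3 * i ≤ 3 ^ i := by
    intro i
    induction i with
    | zero => norm_num
    | succ i ih =>
      rcases Nat.eq_zero_or_pos i with h | h
      · subst h; norm_num
      · calc 3 * (i + 1) ≤ 3 * (3 * i) := by lia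
          _ ≤ 3 * 3 ^ i := by lia
          _ = 3 ^ (i + 1) := by ring
  have h9j : ∀ i : ℕ, 2 ≤ i → 3 * (3 * i) ≤ 2 * 3 ^ i := by
    intro i hi
    induction i, hi using Nat.le_induction with
    | base => norm_num
    | succ i hi ih =>
      calc 3 * (3 * (i + 1)) ≤ 3 * (3 * (3 * i)) := by lia
        _ ≤ 3 * (2 * 3 ^ i) := by lia
        _ = 2 * 3 ^ (i + 1) := by ring
  have hP : ∏ e, (3 * j e) ≤ 3 ^ ∑ e, j e := by
    rw [← prod_pow_eq_pow_sum]
    exact prod_le_prod' fun e _ => h3j (j e)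
  by_cases h1 : ∀ e, j e = 1
  · -- some star is not complete
    obtain ⟨t0, ht0, h0⟩ : ∃ t0 ∈ T, (H.filter (fun e => t0 ⊆ e)).card < n - l := by
      by_contra hc
      exact hbad ⟨h1, fun t ht => by
        by_contra h'
        exact hc ⟨t, ht, not_le.1 h'⟩⟩
    have h2 : ∑ t ∈ T, (H.filter (fun e => t ⊆ e)).card < c * (n - l) := by
      rw [← hTc, ← smul_eq_mul, ← sum_const]
      exact sum_lt_sum (fun t ht => c_deg_le hH (hT t ht)) ⟨t0, ht0, h0⟩
    calc 3 * ∏ e, (3 * j e) ≤ 3 * 3 ^ ∑ e, j e := Nat.mul_le_mul_left _ hP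
      _ = 3 ^ (∑ e, j e + 1) := by ring
      _ ≤ 3 ^ (c * (n - l)) := Nat.pow_le_pow_right (by norm_num) (by rw [hsum]; lia)
      _ ≤ 2 * 3 ^ (c * (n - l)) := by lia
  · obtain ⟨e0, he0⟩ : ∃ e0, j e0 ≠ 1 := by
      by_contra hc
      exact h1 fun e => by
        by_contra h'
        exact hc ⟨e, h'⟩
    rcases Nat.eq_zero_or_pos (j e0) with h0 | h0
    · have : ∏ e, (3 * j e) = 0 := prod_eq_zero (mem_univ e0) (by simp [h0])
      rw [this]; simp
    · have h2 : 2 ≤ j e0 := by lia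
      have h4 : ∏ e ∈ univ.erase e0, (3 * j e) ≤ 3 ^ ∑ e ∈ univ.erase e0, j e := by
        rw [← prod_pow_eq_pow_sum]
        exact prod_le_prod' fun e _ => h3j (j e)
      rw [← mul_prod_erase univ _ (mem_univ e0)]
      calc 3 * (3 * j e0 * ∏ e ∈ univ.erase e0, (3 * j e))
          = (3 * (3 * j e0)) * ∏ e ∈ univ.erase e0, (3 * j e) := by ring
        _ ≤ (2 * 3 ^ j e0) * 3 ^ ∑ e ∈ univ.erase e0, j e := Nat.mul_le_mul (h9j _ h2) h4
        _ = 2 * 3 ^ (∑ e, j e) := by
            rw [mul_assoc, ← pow_add, add_sum_erase univ _ (mem_univ e0)]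
        _ ≤ 2 * 3 ^ (c * (n - l)) := by
            apply Nat.mul_le_mul_left
            exact Nat.pow_le_pow_right (by norm_num) (by rw [hsum]; exact hle)

end bounds

section final
open Classical in
/-- the bound of the number of colorings if the structure is not the right one -/
theorem c_total {n l c : ℕ} {H : Finset (Finset (Fin n))} (hc : 1 ≤ c)
    (hH : ∀ e ∈ H, e.card = l + 1)
    (hbad : ¬ ((c_T (3 * c) l H).card = c ∧
      (∀ e : {e // e ∈ H}, ((c_T (3 * c) l H).filter (fun t => t ⊆ e.1)).card = 1) ∧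
      ∀ t ∈ c_T (3 * c) l H, n - l ≤ (H.filter (fun e => t ⊆ e)).card))
    (hpos : 0 < kappa (3 * c) l H) :
    3 * kappa (3 * c) l H ≤ 2 * Phi3 c * 3 ^ (c * (n - l)) +
      3 * ((3 * c + 1) ^ (3 * c) * ((3 * c * (l + 3) * (H.card + 1) ^ (3 * c * (l + 3))) ^ (3 * c) *
        ((3 * c) ^ ((3 * c) ^ 2) * (3 ^ c - 1) ^ (n - l)))) := by
  set k := 3 * c with hk
  set T := c_T k l H with hTdef
  have hk1 : 1 ≤ k := by lia
  have hT : ∀ t ∈ T, t.card = l := fun t ht => (c_mem_T.1 ht).1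
  let 𝒱 : Finset ({e // e ∈ H} → Fin k) := univ.filter (fun D => c_valid l D)
  have hκ : kappa k l H = 𝒱.card := by
    unfold kappa
    rw [Nat.card_eq_fintype_card, Fintype.card_subtype]
    apply congrArg
    ext D
    simp only [mem_filter, mem_univ, true_and, 𝒱]
    rfl
  have hV : ∀ D ∈ 𝒱, c_valid l D := fun D hD => (mem_filter.1 hD).2
  have hTk : T.card ≤ k := by
    rw [hκ] at hpos
    obtain ⟨D0, hD0⟩ := card_pos.1 hpos
    have h1 : T.map Function.Embedding.some ⊆ univ.image (c_Th l D0) := by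
      intro o ho
      obtain ⟨t, ht, rfl⟩ := mem_map.1 ho
      obtain ⟨x, hx⟩ := c_P3 hH (hV D0 hD0) hk1 ht
      exact mem_image.2 ⟨x, mem_univ _, hx⟩
    have h2 := (card_le_card h1).trans card_image_le
    rwa [card_map, card_univ, Fintype.card_fin] at h2
  let Θ : Finset (Fin k → Option (Finset (Fin n))) := Fintype.piFinset fun _ => insertNone T
  have hΘ : ∀ D ∈ 𝒱, c_Th l D ∈ Θ := by
    intro D _
    rw [Fintype.mem_piFinset]
    intro x
    rcases hx : c_Th l D x with _ | t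
    · exact none_mem_insertNone
    · exact some_mem_insertNone.2 (c_P1 hx).1
  have hΘcard : Θ.card ≤ (k + 1) ^ k := by
    rw [Fintype.card_piFinset]
    simp only [card_insertNone, prod_const, card_univ, Fintype.card_fin]
    exact Nat.pow_le_pow_left (by lia) k
  let N : (Fin k → Option (Finset (Fin n))) → ℕ := fun θ =>
    (𝒱.filter (fun D => c_Th l D = θ)).card
  have hsum : 𝒱.card = ∑ θ ∈ Θ, N θ := card_eq_sum_card_fiberwise (fun D hD => hΘ D hD)
  let Pm : (Fin k → Option (Finset (Fin n))) → Prop := fun θ => ∀ t ∈ T, c_a θ t = 3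
  have hsplit : ∑ θ ∈ Θ, N θ = ∑ θ ∈ Θ.filter (fun θ => T.card = c ∧ Pm θ), N θ +
      ∑ θ ∈ Θ.filter (fun θ => ¬ (T.card = c ∧ Pm θ)), N θ :=
    (sum_filter_add_sum_filter_not Θ _ _).symm
  -- main part
  have hmain : 3 * ∑ θ ∈ Θ.filter (fun θ => T.card = c ∧ Pm θ), N θ ≤
      2 * Phi3 c * 3 ^ (c * (n - l)) := by
    by_cases hTc : T.card = c
    · have hbad' : ¬ ((∀ e : {e // e ∈ H}, (T.filter (fun t => t ⊆ e.1)).card = 1) ∧
          ∀ t ∈ T, n - l ≤ (H.filter (fun e => t ⊆ e)).card) := fun h => hbad ⟨hTc, h⟩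
      have h1 : ∀ θ ∈ Θ.filter (fun θ => T.card = c ∧ Pm θ), 3 * N θ ≤
          2 * 3 ^ (c * (n - l)) := by
        intro θ hθ
        have hθ3 : ∀ t ∈ T, c_a θ t = 3 := (mem_filter.1 hθ).2.2
        refine le_trans ?_ (c_main_bound hTc hH hT hbad')
        apply Nat.mul_le_mul_left
        have h2 : ∑ t ∈ T, c_a θ t = k := by
          rw [sum_congr rfl hθ3, sum_const, hTc, smul_eq_mul, mul_comm]
        have h3 := (c_sum_a T θ).2 h2
        refine (c_count0 (fun e => c_A T θ e.1) _ ?_).trans (prod_le_prod' fun e _ => ?_)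
        · intro D hD e
          rw [mem_filter] at hD
          obtain ⟨t, ht, hx⟩ := h3 (D e)
          have h4 := (c_P1 (show c_Th l D (D e) = some t by rw [hD.2]; exact hx)).2 e rfl
          exact mem_biUnion.2 ⟨t, mem_filter.2 ⟨ht, h4⟩, mem_filter.2 ⟨mem_univ _, hx⟩⟩
        · unfold c_A
          refine card_biUnion_le.trans ?_
          have h5 : ∀ t ∈ T.filter (fun t => t ⊆ e.1),
              (univ.filter (fun x => θ x = some t)).card = 3 := fun t ht =>
            hθ3 t (mem_filter.1 ht).1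
          rw [sum_congr rfl h5, sum_const, smul_eq_mul, mul_comm]
      have h6 : (Θ.filter (fun θ => T.card = c ∧ Pm θ)).card ≤ Phi3 c := by
        refine le_trans (card_le_card ?_) (c_main_card T hTc)
        intro θ hθ
        rw [mem_filter] at hθ ⊢
        exact ⟨hθ.1, hθ.2.2⟩
      rw [mul_sum]
      calc ∑ θ ∈ Θ.filter (fun θ => T.card = c ∧ Pm θ), 3 * N θ
          ≤ ∑ θ ∈ Θ.filter (fun θ => T.card = c ∧ Pm θ), 2 * 3 ^ (c * (n - l)) :=
            sum_le_sum h1
        _ = (Θ.filter (fun θ => T.card = c ∧ Pm θ)).card * (2 * 3 ^ (c * (n - l))) := by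
            rw [sum_const, smul_eq_mul]
        _ ≤ Phi3 c * (2 * 3 ^ (c * (n - l))) := Nat.mul_le_mul_right _ h6
        _ = _ := by ring
    · have h1 : Θ.filter (fun θ => T.card = c ∧ Pm θ) = ∅ := by
        rw [filter_eq_empty_iff]
        intro θ _ h
        exact hTc h.1
      rw [h1]; simp
  -- other part
  have hother : ∑ θ ∈ Θ.filter (fun θ => ¬ (T.card = c ∧ Pm θ)), N θ ≤
      (k + 1) ^ k * ((k * (l + 3) * (H.card + 1) ^ (k * (l + 3))) ^ k *
        (k ^ (k ^ 2) * (3 ^ c - 1) ^ (n - l))) := by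
    have h1 : ∀ θ ∈ Θ.filter (fun θ => ¬ (T.card = c ∧ Pm θ)), N θ ≤
        (k * (l + 3) * (H.card + 1) ^ (k * (l + 3))) ^ k *
        (k ^ (k ^ 2) * (3 ^ c - 1) ^ (n - l)) := by
      intro θ hθ
      rw [mem_filter] at hθ
      rcases (𝒱.filter (fun D => c_Th l D = θ)).eq_empty_or_nonempty with h0 | ⟨D0, hD0⟩
      · simp only [N, h0, card_empty]; exact Nat.zero_le _
      · rw [mem_filter] at hD0
        have ha : ∀ t ∈ T, 1 ≤ c_a θ t := by
          intro t ht
          obtain ⟨x, hx⟩ := c_P3 hH (hV D0 hD0.1) hk1 ht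
          rw [hD0.2] at hx
          exact card_pos.2 ⟨x, mem_filter.2 ⟨mem_univ _, hx⟩⟩
        have h2 := c_count (univ.filter (fun x => θ x = none))
          ((univ : Finset (Finset {e // e ∈ H})).filter (fun s => s.card < k * (l + 3)))
          (mem_filter.2 ⟨mem_univ _, by rw [card_empty]; positivity⟩)
          (fun e => c_A T θ e.1) (𝒱.filter (fun D => c_Th l D = θ)) (by
            intro D hD x hx
            rw [mem_filter] at hD hx ⊢
            refine ⟨mem_univ _, c_P2 hH (hV D hD.1) (x := x) ?_⟩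
            rw [hD.2]; exact hx.2) (by
            intro D hD e
            rw [mem_filter] at hD
            rcases hx : θ (D e) with _ | t
            · left; exact mem_filter.2 ⟨mem_univ _, hx⟩
            · right
              have h4 := c_P1 (show c_Th l D (D e) = some t by rw [hD.2]; exact hx)
              exact mem_biUnion.2 ⟨t, mem_filter.2 ⟨h4.1, h4.2 e rfl⟩,
                mem_filter.2 ⟨mem_univ _, hx⟩⟩)
        refine h2.trans (Nat.mul_le_mul ?_ ?_)
        · apply Nat.pow_le_pow_left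
          have h3 := c_small (E := {e // e ∈ H}) (k * (l + 3))
          rwa [Fintype.card_coe] at h3
        · refine (c_B1 hH hT hTk hk1 ha).trans (Nat.mul_le_mul_left _ ?_)
          apply Nat.pow_le_pow_left
          exact c_prod_lt ha (c_sum_a T θ).1 (fun h => hθ.2 ⟨h.1, h.2⟩)
    calc ∑ θ ∈ Θ.filter (fun θ => ¬ (T.card = c ∧ Pm θ)), N θ
        ≤ ∑ θ ∈ Θ.filter (fun θ => ¬ (T.card = c ∧ Pm θ)),
          ((k * (l + 3) * (H.card + 1) ^ (k * (l + 3))) ^ k *
            (k ^ (k ^ 2) * (3 ^ c - 1) ^ (n - l))) := sum_le_sum h1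
      _ = (Θ.filter (fun θ => ¬ (T.card = c ∧ Pm θ))).card *
          ((k * (l + 3) * (H.card + 1) ^ (k * (l + 3))) ^ k *
            (k ^ (k ^ 2) * (3 ^ c - 1) ^ (n - l))) := by rw [sum_const, smul_eq_mul]
      _ ≤ _ := Nat.mul_le_mul_right _ ((card_filter_le _ _).trans hΘcard)
  rw [hκ, hsum, hsplit, mul_add]
  exact Nat.add_le_add hmain (Nat.mul_le_mul_left _ hother)

theorem c_asym (c l : ℕ) (hc : 1 ≤ c) : ∃ n0 : ℕ, ∀ n ≥ n0, ∀ h : ℕ, h ≤ n ^ (l + 1) →
    (((3 * c + 1) ^ (3 * c) * ((3 * c * (l + 3) * (h + 1) ^ (3 * c * (l + 3))) ^ (3 * c) *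
        ((3 * c) ^ ((3 * c) ^ 2) * (3 ^ c - 1) ^ (n - l))) : ℕ) : ℝ) <
      (1 / 12 : ℝ) * 3 ^ (c * (n - l)) := by
  set d := 3 * c * (l + 3) with hd
  set K := (l + 1) * d * (3 * c) with hK
  set ρ : ℝ := (3 ^ c - 1) / 3 ^ c with hρ
  have h3c : (0 : ℝ) < 3 ^ c := by positivity
  have h3c1 : (3 : ℝ) ≤ 3 ^ c := by
    calc (3 : ℝ) = 3 ^ 1 := (pow_one _).symm
      _ ≤ 3 ^ c := pow_le_pow_right₀ (by norm_num) hc
  have hρ0 : 0 < ρ := div_pos (by linarith) h3c
  have hρ1 : ρ < 1 := by rw [hρ, div_lt_one h3c]; linarith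
  set C : ℝ := ((3 * c + 1) ^ (3 * c) * (d ^ (3 * c) * 2 ^ (d * (3 * c))) *
    (3 * c) ^ ((3 * c) ^ 2) : ℝ) with hC
  have hlim := tendsto_pow_const_mul_const_pow_of_abs_lt_one K (r := ρ)
    (by rw [abs_of_pos hρ0]; exact hρ1)
  have hlim2 : Filter.Tendsto (fun n : ℕ => C * ((n : ℝ) ^ K * ρ ^ n)) Filter.atTop (nhds 0) := by
    simpa using hlim.const_mul C
  have hev := hlim2.eventually_lt_const (show (0 : ℝ) < ρ ^ l / 12 by positivity)
  obtain ⟨n1, hn1⟩ := Filter.eventually_atTop.1 hev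
  refine ⟨max n1 (l + 1), fun n hn h hh => ?_⟩
  have hn1' := hn1 n (le_trans (le_max_left _ _) hn)
  have hnl : l + 1 ≤ n := le_trans (le_max_right _ _) hn
  have hn0 : (1 : ℝ) ≤ n := by exact_mod_cast (by lia : 1 ≤ n)
  have hsub : ((3 ^ c - 1 : ℕ) : ℝ) = 3 ^ c - 1 := by
    rw [Nat.cast_sub (Nat.one_le_pow _ _ (by norm_num))]
    push_cast; ring
  have hh' : ((h : ℝ) + 1) ≤ 2 * n ^ (l + 1) := by
    have h1 : (h : ℝ) ≤ n ^ (l + 1) := by exact_mod_cast hh
    have h2 : (1 : ℝ) ≤ n ^ (l + 1) := one_le_pow₀ hn0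
    linarith
  push_cast
  rw [hsub]
  have e1 : ((h : ℝ) + 1) ^ d ≤ (2 * (n : ℝ) ^ (l + 1)) ^ d :=
    pow_le_pow_left₀ (by positivity) hh' d
  have e2 : ((d : ℝ) * ((h : ℝ) + 1) ^ d) ^ (3 * c) ≤
      (d ^ (3 * c) * 2 ^ (d * (3 * c))) * (n : ℝ) ^ K := by
    calc ((d : ℝ) * ((h : ℝ) + 1) ^ d) ^ (3 * c) ≤ (d * (2 * (n : ℝ) ^ (l + 1)) ^ d) ^ (3 * c) := by
          gcongr
      _ = _ := by
          rw [mul_pow, mul_pow, mul_pow, ← pow_mul, ← pow_mul, ← pow_mul, hK]
          ring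
  have e3 : ((3 : ℝ) ^ c - 1) ^ (n - l) = ρ ^ (n - l) * 3 ^ (c * (n - l)) := by
    rw [hρ, div_pow, pow_mul]
    field_simp
  have e4 : ρ ^ n = ρ ^ (n - l) * ρ ^ l := by
    rw [← pow_add]; congr 1; lia
  rw [e3]
  calc ((3 : ℝ) * c + 1) ^ (3 * c) * (((d : ℝ) * ((h : ℝ) + 1) ^ d) ^ (3 * c) *
        ((3 * c) ^ ((3 * c) ^ 2) * (ρ ^ (n - l) * 3 ^ (c * (n - l)))))
      ≤ ((3 : ℝ) * c + 1) ^ (3 * c) * (((d ^ (3 * c) * 2 ^ (d * (3 * c))) * (n : ℝ) ^ K) *
        ((3 * c) ^ ((3 * c) ^ 2) * (ρ ^ (n - l) * 3 ^ (c * (n - l))))) := by gcongr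
    _ = (C * ((n : ℝ) ^ K * ρ ^ (n - l))) * 3 ^ (c * (n - l)) := by rw [hC]; ring
    _ < (1 / 12 : ℝ) * 3 ^ (c * (n - l)) := by
        apply mul_lt_mul_of_pos_right _ (by positivity)
        have hρl : 0 < ρ ^ l := by positivity
        have h5 : (C * ((n : ℝ) ^ K * ρ ^ (n - l))) * ρ ^ l < ρ ^ l / 12 := by
          calc _ = C * ((n : ℝ) ^ K * ρ ^ n) := by rw [e4]; ring
            _ < _ := hn1'
        have h6 : (C * ((n : ℝ) ^ K * ρ ^ (n - l))) * ρ ^ l < (1 / 12) * ρ ^ l := by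
          linarith
        exact lt_of_mul_lt_mul_right h6 hρl.le

theorem stC : StC := by
  classical
  intro c l hc hl
  obtain ⟨n0, hn0⟩ := c_asym c l (by lia)
  refine ⟨n0, fun n hn H hH hk => ?_⟩
  have hphi : (1 : ℝ) ≤ Phi3 c := by exact_mod_cast c_phi_pos c
  have h3 : (0 : ℝ) < 3 ^ (c * (n - l)) := by positivity
  have hpos : 0 < kappa (3 * c) l H := by
    have : (0 : ℝ) < kappa (3 * c) l H := lt_of_lt_of_le (by positivity) hk
    exact_mod_cast this
  have hcard : H.card ≤ n ^ (l + 1) := by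
    have h1 : H ⊆ powersetCard (l + 1) (univ : Finset (Fin n)) := fun e he =>
      mem_powersetCard.2 ⟨subset_univ _, hH e he⟩
    refine (card_le_card h1).trans ?_
    rw [card_powersetCard, card_univ, Fintype.card_fin]
    exact Nat.choose_le_pow _ _
  have hasy := hn0 n hn H.card hcard
  by_cases hgood : (c_T (3 * c) l H).card = c ∧
      (∀ e : {e // e ∈ H}, ((c_T (3 * c) l H).filter (fun t => t ⊆ e.1)).card = 1) ∧
      ∀ t ∈ c_T (3 * c) l H, n - l ≤ (H.filter (fun e => t ⊆ e)).card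
  · obtain ⟨g1, g2, g3⟩ := hgood
    have hT : ∀ t ∈ c_T (3 * c) l H, t.card = l := fun t ht => (c_mem_T.1 ht).1
    have hHc : H = Hc (c_T (3 * c) l H) (l + 1) := by
      ext e
      unfold Hc
      rw [mem_filter, mem_powersetCard]
      constructor
      · intro he
        obtain ⟨t, ht⟩ := card_eq_one.1 (g2 ⟨e, he⟩)
        have ht' : t ∈ (c_T (3 * c) l H).filter (fun t => t ⊆ e) := by
          rw [ht]; exact mem_singleton_self t
        exact ⟨⟨subset_univ _, hH e he⟩, t, (mem_filter.1 ht').1, (mem_filter.1 ht').2⟩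
      · rintro ⟨⟨-, he⟩, t, ht, hte⟩
        exact c_deg_eq hH (hT t ht) (g3 t ht) he hte
    refine ⟨c_T (3 * c) l H, g1, hT, ?_, hHc⟩
    intro t ht t' ht' hne
    by_contra hcon
    have h4 : (t ∪ t').card = l + 1 := by
      apply le_antisymm (not_lt.1 hcon)
      by_contra h
      have h1 : t = t ∪ t' := eq_of_subset_of_card_le subset_union_left (by rw [hT t ht]; lia)
      have h2 : t' = t ∪ t' := eq_of_subset_of_card_le subset_union_right (by rw [hT t' ht']; lia)
      exact hne (h1.trans h2.symm)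
    have h5 : t ∪ t' ∈ H := c_deg_eq hH (hT t ht) (g3 t ht) h4 subset_union_left
    have h6 := g2 ⟨t ∪ t', h5⟩
    have h7 : 1 < ((c_T (3 * c) l H).filter (fun s => s ⊆ t ∪ t')).card :=
      one_lt_card.2 ⟨t, mem_filter.2 ⟨ht, subset_union_left⟩, t',
        mem_filter.2 ⟨ht', subset_union_right⟩, hne⟩
    simp only at h6
    lia
  · exfalso
    have h1 := c_total (by lia) hH hgood hpos
    have h2 : (3 : ℝ) * kappa (3 * c) l H ≤ 2 * Phi3 c * 3 ^ (c * (n - l)) +
      3 * (((3 * c + 1) ^ (3 * c) * ((3 * c * (l + 3) * (H.card + 1) ^ (3 * c * (l + 3))) ^ (3 * c) *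
        ((3 * c) ^ ((3 * c) ^ 2) * (3 ^ c - 1) ^ (n - l))) : ℕ) : ℝ) := by
      exact_mod_cast h1
    nlinarith [mul_le_mul_of_nonneg_right hphi h3.le]

end final

end R132.KC
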