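import Pool.Agent.R132.KC.Defs

namespace R132.KC

open Finset

attribute [local instance] Classical.propDecidable

theorem sum_pows {α : Type} [Fintype α] [DecidableEq α] (S : Finset α) :
    ∑ A ∈ S.powerset, (1 / 3 : ℝ) ^ A.card = (4 / 3) ^ S.card := by
  have h := Finset.sum_pow_mul_eq_add_pow (1 / 3 : ℝ) 1 S
  simp only [one_pow, mul_one] at h
  rw [h]; norm_num

theorem sum_np (q : ℕ) (hq : 1 ≤ q) :
    (16 / 9 : ℝ) ^ q - q * (16 / 9) ≤
      ∑ A ∈ (univ : Finset (Finset (Fin (2 * q)))).filter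
        (fun A => ∃ a ∈ A, ∃ b ∈ A, a.val / 2 ≠ b.val / 2), (1 / 3 : ℝ) ^ A.card := by
  have htot : ∑ A ∈ (univ : Finset (Finset (Fin (2 * q)))), (1 / 3 : ℝ) ^ A.card =
      (16 / 9) ^ q := by
    rw [← Finset.powerset_univ, sum_pows, Finset.card_univ, Fintype.card_fin, pow_mul]
    norm_num
  rw [← Finset.sum_filter_add_sum_filter_not (univ : Finset (Finset (Fin (2 * q))))
    (fun A => ∃ a ∈ A, ∃ b ∈ A, a.val / 2 ≠ b.val / 2)] at htot
  have hpure : ∑ A ∈ (univ : Finset (Finset (Fin (2 * q)))).filter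
      (fun A => ¬ ∃ a ∈ A, ∃ b ∈ A, a.val / 2 ≠ b.val / 2), (1 / 3 : ℝ) ^ A.card ≤
      q * (16 / 9) := by
    let P : Fin q → Finset (Fin (2 * q)) := fun i => univ.filter (fun a => a.val / 2 = i.val)
    have hP : ∀ i, (P i).card ≤ 2 := by
      intro i
      have : P i ⊆ {⟨2 * i.val, by have := i.2; omega⟩, ⟨2 * i.val + 1, by have := i.2; omega⟩} := by
        intro a ha
        have h1 : a.val / 2 = i.val := (Finset.mem_filter.mp ha).2
        rw [Finset.mem_insert, Finset.mem_singleton, Fin.ext_iff, Fin.ext_iff]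
        simp only
        omega
      exact (Finset.card_le_card this).trans (Finset.card_le_two)
    calc ∑ A ∈ (univ : Finset (Finset (Fin (2 * q)))).filter
          (fun A => ¬ ∃ a ∈ A, ∃ b ∈ A, a.val / 2 ≠ b.val / 2), (1 / 3 : ℝ) ^ A.card
        ≤ ∑ A ∈ (univ : Finset (Finset (Fin (2 * q)))).filter
          (fun A => ¬ ∃ a ∈ A, ∃ b ∈ A, a.val / 2 ≠ b.val / 2),
            ∑ i : Fin q, (if A ⊆ P i then (1 / 3 : ℝ) ^ A.card else 0) := by
          apply Finset.sum_le_sum
          intro A hA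
          have hA' := (Finset.mem_filter.mp hA).2
          push Not at hA'
          have : ∃ i : Fin q, A ⊆ P i := by
            rcases A.eq_empty_or_nonempty with h | ⟨a, ha⟩
            · exact ⟨⟨0, hq⟩, by rw [h]; exact Finset.empty_subset _⟩
            · refine ⟨⟨a.val / 2, by have := a.2; omega⟩, ?_⟩
              intro b hb
              exact Finset.mem_filter.mpr ⟨Finset.mem_univ _, hA' b hb a ha⟩
          obtain ⟨i, hi⟩ := this
          calc (1 / 3 : ℝ) ^ A.card = (if A ⊆ P i then (1 / 3 : ℝ) ^ A.card else 0) := by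
                rw [if_pos hi]
            _ ≤ _ := Finset.single_le_sum (f := fun i => (if A ⊆ P i then (1 / 3 : ℝ) ^ A.card else 0))
                (fun j _ => by split_ifs <;> positivity) (Finset.mem_univ i)
      _ = ∑ i : Fin q, ∑ A ∈ (univ : Finset (Finset (Fin (2 * q)))).filter
          (fun A => ¬ ∃ a ∈ A, ∃ b ∈ A, a.val / 2 ≠ b.val / 2),
            (if A ⊆ P i then (1 / 3 : ℝ) ^ A.card else 0) := Finset.sum_comm
      _ ≤ ∑ i : Fin q, (16 / 9 : ℝ) := by
          apply Finset.sum_le_sum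
          intro i _
          rw [← Finset.sum_filter]
          calc _ ≤ ∑ A ∈ (P i).powerset, (1 / 3 : ℝ) ^ A.card := by
                apply Finset.sum_le_sum_of_subset_of_nonneg
                · intro A hA
                  exact Finset.mem_powerset.mpr (Finset.mem_filter.mp hA).2
                · intro A _ _; positivity
            _ = (4 / 3) ^ (P i).card := sum_pows _
            _ ≤ (4 / 3) ^ 2 := pow_le_pow_right₀ (by norm_num) (hP i)
            _ = 16 / 9 := by norm_num
      _ = q * (16 / 9) := by rw [Finset.sum_const, Finset.card_univ, Fintype.card_fin, nsmul_eq_mul]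
  linarith

theorem num_aux : ∀ c : ℕ, 100 ≤ c → 5 * (c : ℝ) ^ 2 * (3 / 2) ^ c < (16 / 9) ^ (c - 1) := by
  intro c hc
  induction c, hc using Nat.le_induction with
  | base => norm_num
  | succ c hc ih =>
    have h1 : (100 : ℝ) ≤ c := by exact_mod_cast hc
    have h2 : ((c + 1 : ℕ) : ℝ) ^ 2 ≤ 1.0201 * (c : ℝ) ^ 2 := by
      push_cast
      nlinarith
    have h3 : (16 / 9 : ℝ) ^ (c + 1 - 1) = (16 / 9) ^ (c - 1) * (16 / 9) := by
      rw [← pow_succ]
      congr 1
      omega
    rw [h3]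
    have hpos : (0 : ℝ) < (3 / 2) ^ c := by positivity
    calc 5 * ((c + 1 : ℕ) : ℝ) ^ 2 * (3 / 2) ^ (c + 1)
        ≤ 5 * (1.0201 * (c : ℝ) ^ 2) * (3 / 2) ^ (c + 1) := by
          apply mul_le_mul_of_nonneg_right _ (by positivity)
          linarith
      _ = (5 * (c : ℝ) ^ 2 * (3 / 2) ^ c) * 1.53015 := by rw [pow_succ]; ring
      _ ≤ (16 / 9) ^ (c - 1) * 1.53015 := by
          apply mul_le_mul_of_nonneg_right ih.le (by norm_num)
      _ < (16 / 9) ^ (c - 1) * (16 / 9) := by
          apply mul_lt_mul_of_pos_left (by norm_num) (by positivity)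

theorem num_main (c : ℕ) (hc : 100 ≤ c) :
    (c : ℝ) ^ 2 * (12 + 4 * (3 / 2) ^ c) < (16 / 9 : ℝ) ^ (c - 1) - ((c - 1 : ℕ) : ℝ) * (16 / 9) := by
  have h1 := num_aux c hc
  have h100 : (100 : ℝ) ≤ c := by exact_mod_cast hc
  have h2 : (14 : ℝ) ≤ (3 / 2) ^ c := by
    calc (14 : ℝ) ≤ (3 / 2) ^ 10 := by norm_num
      _ ≤ (3 / 2) ^ c := pow_le_pow_right₀ (by norm_num) (by omega)
  have h3 : (((c - 1 : ℕ) : ℝ)) ≤ c := by exact_mod_cast Nat.sub_le c 1
  have h4 : (14 : ℝ) * (c : ℝ) ^ 2 ≤ (c : ℝ) ^ 2 * (3 / 2) ^ c := by nlinarith [sq_nonneg (c : ℝ)]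
  have h5 : (c : ℝ) * 100 ≤ (c : ℝ) ^ 2 := by nlinarith
  nlinarith

theorem Phi_pos (c : ℕ) (hc : 1 ≤ c) : 1 ≤ Phi c := by
  unfold Phi
  rw [Nat.one_le_iff_ne_zero, Nat.card_ne_zero]
  refine ⟨?_, inferInstance⟩
  refine ⟨⟨fun x => if x.val = 0 then none else some ⟨x.val / 3, by have := x.2; omega⟩, ?_, ?_⟩⟩
  · rw [Finset.card_eq_one]
    refine ⟨⟨0, by omega⟩, ?_⟩
    ext x
    simp only [Finset.mem_filter, Finset.mem_univ, true_and, Finset.mem_singleton, Fin.ext_iff]
    split_ifs with h <;> simp [h]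
  · intro i
    have hi := i.2
    rcases Nat.eq_zero_or_pos i.val with h0 | h0
    · left
      rw [Finset.card_eq_two]
      refine ⟨⟨1, by omega⟩, ⟨2, by omega⟩, by simp [Fin.ext_iff], ?_⟩
      ext x
      simp only [Finset.mem_filter, Finset.mem_univ, true_and, Finset.mem_insert,
        Finset.mem_singleton, Fin.ext_iff]
      split_ifs with h
      · simp [h]
      · simp only [Option.some.injEq, Fin.ext_iff]
        omega
    · right
      rw [Finset.card_eq_three]
      refine ⟨⟨3 * i.val, by omega⟩, ⟨3 * i.val + 1, by omega⟩, ⟨3 * i.val + 2, by omega⟩,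
        by simp [Fin.ext_iff], by simp [Fin.ext_iff], by simp [Fin.ext_iff], ?_⟩
      ext x
      simp only [Finset.mem_filter, Finset.mem_univ, true_and, Finset.mem_insert,
        Finset.mem_singleton, Fin.ext_iff]
      split_ifs with h
      · simp; omega
      · simp only [Option.some.injEq, Fin.ext_iff]
        omega

end R132.KC
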