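import Pool.Agent.R132.KC.S
import Pool.Agent.R132.KC.N

namespace R132.KC

open Finset

attribute [local instance] Classical.propDecidable

theorem card_fin_filter (n : ℕ) (P : ℕ → Prop) :
    (univ.filter (fun v : Fin n => P v.val)).card = ((range n).filter P).card := by
  have : (univ.filter (fun v : Fin n => P v.val)).map Fin.valEmbedding = (range n).filter P := by
    ext x
    simp only [Finset.mem_map, Finset.mem_filter, Finset.mem_univ, true_and, Finset.mem_range,
      Fin.valEmbedding_apply]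
    constructor
    · rintro ⟨v, hv, rfl⟩
      exact ⟨v.2, hv⟩
    · rintro ⟨h1, h2⟩
      exact ⟨⟨x, h1⟩, h2, rfl⟩
  rw [← this, Finset.card_map]

/-- the special family -/
noncomputable def ts (q n : ℕ) : Fin (q + 1) → Finset (Fin n) := fun i =>
  if i.val < q then univ.filter (fun v => v.val < 2 * q ∧ v.val / 2 ≠ i.val)
  else univ.filter (fun v => 2 * q ≤ v.val ∧ v.val < 4 * q - 2)

noncomputable def Wset (q n : ℕ) : Finset (Fin n) := univ.filter (fun v => v.val < 2 * q)

theorem Wset_card {q n : ℕ} (hn : 4 * q ≤ n) : (Wset q n).card = 2 * q := by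
  unfold Wset
  have h0 : (univ.filter (fun v : Fin n => v.val < 2 * q)).card =
      ((range n).filter (fun v => v < 2 * q)).card := by
    convert card_fin_filter n (fun v => v < 2 * q)
  rw [h0]
  have : (range n).filter (fun v => v < 2 * q) = range (2 * q) := by
    ext x; simp only [Finset.mem_filter, Finset.mem_range]; omega
  rw [this, Finset.card_range]

theorem ts_card {q n : ℕ} (hq : 2 ≤ q) (hn : 4 * q ≤ n) (i : Fin (q + 1)) :
    (ts q n i).card = 2 * (q + 1) - 4 := by
  unfold ts
  split_ifs with h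
  · have h0 : (univ.filter (fun v : Fin n => v.val < 2 * q ∧ v.val / 2 ≠ i.val)).card =
        ((range n).filter (fun v => v < 2 * q ∧ v / 2 ≠ i.val)).card := by
      convert card_fin_filter n (fun v => v < 2 * q ∧ v / 2 ≠ i.val)
    rw [h0]
    have : (range n).filter (fun v => v < 2 * q ∧ v / 2 ≠ i.val) =
        range (2 * q) \ {2 * i.val, 2 * i.val + 1} := by
      ext x
      simp only [Finset.mem_filter, Finset.mem_range, Finset.mem_sdiff, Finset.mem_insert,
        Finset.mem_singleton]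
      omega
    rw [this, Finset.card_sdiff_of_subset, Finset.card_range, Finset.card_pair (by omega)]
    · omega
    · intro x hx
      simp only [Finset.mem_insert, Finset.mem_singleton] at hx
      rw [Finset.mem_range]
      omega
  · have h0 : (univ.filter (fun v : Fin n => 2 * q ≤ v.val ∧ v.val < 4 * q - 2)).card =
        ((range n).filter (fun v => 2 * q ≤ v ∧ v < 4 * q - 2)).card := by
      convert card_fin_filter n (fun v => 2 * q ≤ v ∧ v < 4 * q - 2)
    rw [h0]
    have : (range n).filter (fun v => 2 * q ≤ v ∧ v < 4 * q - 2) = Finset.Ico (2 * q) (4 * q - 2) := by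
      ext x
      simp only [Finset.mem_filter, Finset.mem_range, Finset.mem_Ico]
      omega
    rw [this, Nat.card_Ico]
    omega

theorem ts_union {q n : ℕ} (hq : 2 ≤ q) (hn : 4 * q ≤ n) (i j : Fin (q + 1)) (hij : i ≠ j) :
    2 * (q + 1) - 4 + 1 < (ts q n i ∪ ts q n j).card := by
  have hij' : i.val ≠ j.val := fun h => hij (Fin.ext h)
  by_cases hi : i.val < q
  · by_cases hj : j.val < q
    · have : Wset q n ⊆ ts q n i ∪ ts q n j := by
        intro v hv
        have hv' : v.val < 2 * q := (Finset.mem_filter.mp hv).2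
        rw [Finset.mem_union]
        unfold ts
        rw [if_pos hi, if_pos hj, Finset.mem_filter, Finset.mem_filter]
        by_cases h : v.val / 2 = i.val
        · right; exact ⟨Finset.mem_univ _, hv', by omega⟩
        · left; exact ⟨Finset.mem_univ _, hv', h⟩
      have h1 := Finset.card_le_card this
      rw [Wset_card hn] at h1
      omega
    · rw [Finset.card_union_of_disjoint, ts_card hq hn, ts_card hq hn]
      · omega
      · rw [Finset.disjoint_left]
        intro v h1 h2
        unfold ts at h1 h2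
        rw [if_pos hi] at h1
        rw [if_neg hj] at h2
        have a1 := (Finset.mem_filter.mp h1).2
        have a2 := (Finset.mem_filter.mp h2).2
        omega
  · have hj : j.val < q := by have := i.2; have := j.2; omega
    rw [Finset.card_union_of_disjoint, ts_card hq hn, ts_card hq hn]
    · omega
    · rw [Finset.disjoint_left]
      intro v h1 h2
      unfold ts at h1 h2
      rw [if_neg hi] at h1
      rw [if_pos hj] at h2
      have a1 := (Finset.mem_filter.mp h1).2
      have a2 := (Finset.mem_filter.mp h2).2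
      omega

/-- the edges inside W -/
noncomputable def eWf (q n : ℕ) (hn : 4 * q ≤ n) (a : Fin (2 * q)) : Finset (Fin n) :=
  (Wset q n).erase ⟨a.val, by have := a.2; omega⟩

theorem eWf_card {q n : ℕ} (hn : 4 * q ≤ n) (a : Fin (2 * q)) :
    (eWf q n hn a).card = 2 * q - 1 := by
  unfold eWf
  rw [Finset.card_erase_of_mem, Wset_card hn]
  exact Finset.mem_filter.mpr ⟨Finset.mem_univ _, a.2⟩

theorem eWf_sub {q n : ℕ} (hn : 4 * q ≤ n) (a : Fin (2 * q)) :
    ts q n ⟨a.val / 2, by have := a.2; omega⟩ ⊆ eWf q n hn a := by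
  intro v hv
  unfold ts at hv
  have h1 : a.val / 2 < q := by have := a.2; omega
  rw [if_pos h1] at hv
  have h2 := (Finset.mem_filter.mp hv).2
  unfold eWf
  rw [Finset.mem_erase]
  refine ⟨?_, Finset.mem_filter.mpr ⟨Finset.mem_univ _, h2.1⟩⟩
  intro h
  apply h2.2
  rw [h]

noncomputable def eW {q n : ℕ} (hq : 2 ≤ q) (hn : 4 * q ≤ n) (a : Fin (2 * q)) :
    Ed (2 * (q + 1) - 4) (ts q n) :=
  ⟨eWf q n hn a, by
    rw [mem_Hc_iff]
    refine ⟨?_, ⟨_, eWf_sub hn a⟩⟩
    rw [eWf_card hn]; omega⟩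

theorem eW_inj {q n : ℕ} (hq : 2 ≤ q) (hn : 4 * q ≤ n) : Function.Injective (eW hq hn) := by
  intro a b h
  have h1 : eWf q n hn a = eWf q n hn b := congrArg Subtype.val h
  by_contra hne
  have h2 : (⟨a.val, by have := a.2; omega⟩ : Fin n) ∈ eWf q n hn b := by
    unfold eWf
    rw [Finset.mem_erase]
    refine ⟨?_, Finset.mem_filter.mpr ⟨Finset.mem_univ _, a.2⟩⟩
    intro h
    rw [Fin.ext_iff] at h
    exact hne (Fin.ext h)
  rw [← h1] at h2
  unfold eWf at h2
  exact absurd rfl (Finset.mem_erase.mp h2).1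

theorem eW_st {q n : ℕ} (hq : 2 ≤ q) (hn : 4 * q ≤ n) (a : Fin (2 * q)) :
    st (ts q n) (eW hq hn a) = ⟨a.val / 2, by have := a.2; omega⟩ :=
  (st_iff (ts q n) (ts_union hq hn) (eW hq hn a) _).mp (eWf_sub hn a)

/-- the special mixed classes -/
noncomputable def Fs {q n : ℕ} (hq : 2 ≤ q) (hn : 4 * q ≤ n) :
    Finset (Finset (Ed (2 * (q + 1) - 4) (ts q n))) :=
  ((univ : Finset (Finset (Fin (2 * q)))).filter
    (fun A => ∃ a ∈ A, ∃ b ∈ A, a.val / 2 ≠ b.val / 2)).image (fun A => A.image (eW hq hn))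

theorem Fs_prop {q n : ℕ} (hq : 2 ≤ q) (hn : 4 * q ≤ n) :
    ∀ M ∈ Fs hq hn, M.card ≤ 2 * q ∧ ¬ Pure (st (ts q n)) M := by
  intro M hM
  obtain ⟨A, hA, rfl⟩ := Finset.mem_image.mp hM
  obtain ⟨a, ha, b, hb, hab⟩ := (Finset.mem_filter.mp hA).2
  constructor
  · refine Finset.card_image_le.trans ?_
    have := Finset.card_le_univ A
    rwa [Fintype.card_fin] at this
  · intro hp
    have := hp _ (Finset.mem_image_of_mem _ ha) _ (Finset.mem_image_of_mem _ hb)
    rw [eW_st hq hn, eW_st hq hn, Fin.ext_iff] at this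
    exact hab this

theorem Fs_sub {q n : ℕ} (hq : 2 ≤ q) (hn : 4 * q ≤ n) :
    Fs hq hn ⊆ Fam (2 * (q + 1) - 4) (ts q n) := by
  intro M hM
  have hnp := (Fs_prop hq hn M hM).2
  unfold Fam
  rw [Finset.mem_filter]
  refine ⟨Finset.mem_univ _, ?_, hnp⟩
  obtain ⟨A, hA, rfl⟩ := Finset.mem_image.mp hM
  intro e he f hf
  obtain ⟨a, _, rfl⟩ := Finset.mem_image.mp he
  obtain ⟨b, _, rfl⟩ := Finset.mem_image.mp hf
  show 2 * (q + 1) - 4 ≤ (eWf q n hn a ∩ eWf q n hn b).card
  have h1 : Wset q n \ {⟨a.val, by have := a.2; omega⟩, ⟨b.val, by have := b.2; omega⟩} ⊆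
      eWf q n hn a ∩ eWf q n hn b := by
    intro v hv
    rw [Finset.mem_sdiff, Finset.mem_insert, Finset.mem_singleton] at hv
    push Not at hv
    rw [Finset.mem_inter]
    exact ⟨Finset.mem_erase.mpr ⟨hv.2.1, hv.1⟩, Finset.mem_erase.mpr ⟨hv.2.2, hv.1⟩⟩
  have h2 := Finset.card_le_card h1
  have h3 := Finset.le_card_sdiff ({⟨a.val, by have := a.2; omega⟩, ⟨b.val, by have := b.2; omega⟩} : Finset (Fin n)) (Wset q n)
  rw [Wset_card hn] at h3
  have h4 : ({⟨a.val, by have := a.2; omega⟩, ⟨b.val, by have := b.2; omega⟩} : Finset (Fin n)).card ≤ 2 :=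
    Finset.card_le_two
  omega

theorem Fs_sum {q n : ℕ} (hq : 2 ≤ q) (hn : 4 * q ≤ n) :
    (16 / 9 : ℝ) ^ q - q * (16 / 9) ≤ ∑ M ∈ Fs hq hn, (1 / 3 : ℝ) ^ M.card := by
  have hinj : Function.Injective (fun A : Finset (Fin (2 * q)) => A.image (eW hq hn)) :=
    Finset.image_injective (eW_inj hq hn)
  unfold Fs
  rw [Finset.sum_image (fun A _ B _ h => hinj h)]
  refine (sum_np q (by omega)).trans (le_of_eq ?_)
  apply Finset.sum_congr rfl
  intro A _
  rw [Finset.card_image_of_injective _ (eW_inj hq hn)]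

end R132.KC
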