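import Pool.Agent.R132.KC.Defs

/-!
# Module D: mixed classes of an equidistant family
-/

namespace R132.KC

open Finset

theorem d_sum {E ι : Type} [DecidableEq E] (I : Finset ι) (X : ι → Finset E)
    (F : Finset (Finset E)) (h : ∀ M ∈ F, ∃ i ∈ I, M ⊆ X i) :
    ∑ M ∈ F, (1 / 2 : ℝ) ^ M.card ≤ ∑ i ∈ I, (3 / 2 : ℝ) ^ (X i).card := by
  classical
  have h1 : ∀ M ∈ F, (1 / 2 : ℝ) ^ M.card ≤
      ∑ i ∈ I, if M ⊆ X i then (1 / 2 : ℝ) ^ M.card else 0 := by
    intro M hM
    obtain ⟨i, hi, hMi⟩ := h M hM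
    have h2 : (if M ⊆ X i then (1 / 2 : ℝ) ^ M.card else 0) ≤
        ∑ i ∈ I, if M ⊆ X i then (1 / 2 : ℝ) ^ M.card else 0 :=
      Finset.single_le_sum (f := fun i => if M ⊆ X i then (1 / 2 : ℝ) ^ M.card else 0)
        (fun j _ => by split_ifs <;> positivity) hi
    rw [if_pos hMi] at h2
    exact h2
  refine (Finset.sum_le_sum h1).trans ?_
  rw [Finset.sum_comm]
  refine Finset.sum_le_sum (fun i _ => ?_)
  rw [← Finset.sum_filter]
  have h3 : ∑ M ∈ (X i).powerset, (1 / 2 : ℝ) ^ M.card = (3 / 2 : ℝ) ^ (X i).card := by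
    have h4 := Finset.sum_pow_mul_eq_add_pow (1 / 2 : ℝ) 1 (X i)
    simp only [one_pow, mul_one] at h4
    rw [h4]
    norm_num
  rw [← h3]
  refine Finset.sum_le_sum_of_subset_of_nonneg ?_ (fun _ _ _ => by positivity)
  intro M hM
  rw [Finset.mem_filter] at hM
  exact Finset.mem_powerset.2 hM.2

section
variable {c n l : ℕ} {t : Fin c → Finset (Fin n)}

/-- the union of two members has `l + 2` elements -/
theorem d_union (ht : ∀ i, (t i).card = l) (htt : ∀ i j, i ≠ j → (t i ∩ t j).card + 2 = l)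
    {i j : Fin c} (hij : i ≠ j) : (t i ∪ t j).card = l + 2 := by
  have h1 := Finset.card_union_add_card_inter (t i) (t j)
  have h2 := ht i
  have h3 := ht j
  have h4 := htt i j hij
  omega

/-- at most three members lie in a set with `l + 2 = 2c - 2` elements -/
theorem d_three (hl : l + 4 = 2 * c) (ht : ∀ i, (t i).card = l)
    (htt : ∀ i j, i ≠ j → (t i ∩ t j).card + 2 = l) (W : Finset (Fin n))
    (hW : W.card = l + 2) : (univ.filter (fun a => t a ⊆ W)).card ≤ 3 := by
  classical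
  obtain ⟨A, hA⟩ : ∃ A : Finset (Fin c), A = univ.filter (fun a => t a ⊆ W) := ⟨_, rfl⟩
  rw [← hA]
  have hAm : ∀ a, a ∈ A ↔ t a ⊆ W := by intro a; rw [hA]; simp
  have hP : ∀ a ∈ A, (W \ t a).card = 2 := by
    intro a ha
    rw [Finset.card_sdiff_of_subset ((hAm a).1 ha), hW, ht a]
    omega
  have hPd : ∀ a ∈ A, ∀ b ∈ A, a ≠ b → Disjoint (W \ t a) (W \ t b) := by
    intro a ha b hb hab
    rw [Finset.disjoint_left]
    intro x hx1 hx2
    rw [Finset.mem_sdiff] at hx1 hx2
    have h1 : t a ∪ t b = W := by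
      refine Finset.eq_of_subset_of_card_le (Finset.union_subset ((hAm a).1 ha) ((hAm b).1 hb)) ?_
      rw [hW, d_union ht htt hab]
    have h2 : x ∈ t a ∪ t b := h1 ▸ hx1.1
    rw [Finset.mem_union] at h2
    rcases h2 with h2 | h2
    · exact hx1.2 h2
    · exact hx2.2 h2
  have hsum : 2 * A.card ≤ l + 2 := by
    have h1 : (A.biUnion (fun a => W \ t a)).card = ∑ a ∈ A, (W \ t a).card :=
      Finset.card_biUnion hPd
    have h2 : (A.biUnion (fun a => W \ t a)).card ≤ W.card := by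
      refine Finset.card_le_card ?_
      intro x hx
      rw [Finset.mem_biUnion] at hx
      obtain ⟨a, _, hx⟩ := hx
      exact (Finset.mem_sdiff.1 hx).1
    rw [h1, Finset.sum_congr rfl hP, Finset.sum_const, smul_eq_mul, hW] at h2
    omega
  have hex : ∃ o, ¬ t o ⊆ W := by
    by_contra hcon
    push Not at hcon
    have h1 : A = univ := by
      ext a
      rw [hAm]
      simp [hcon a]
    rw [h1, Finset.card_univ, Fintype.card_fin] at hsum
    omega
  obtain ⟨o, ho⟩ := hex
  have hoa : ∀ a ∈ A, o ≠ a := by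
    rintro a ha rfl
    exact ho ((hAm _).1 ha)
  rcases A.eq_empty_or_nonempty with h0 | ⟨a0, ha0⟩
  · rw [h0]; simp
  have hYl : (t o ∩ W).card < l := by
    have h1 : t o ∩ W ⊂ t o := by
      refine Finset.ssubset_iff_subset_ne.2 ⟨Finset.inter_subset_left, ?_⟩
      intro h2
      exact ho (Finset.inter_eq_left.1 h2)
    have h2 := Finset.card_lt_card h1
    rw [ht o] at h2
    exact h2
  -- `|P_a \ Y| + |Y| = l`
  have hPY : ∀ a ∈ A, ((W \ t a) \ (t o ∩ W)).card + (t o ∩ W).card = l := by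
    intro a ha
    have h1 := Finset.card_sdiff_add_card_inter (W \ t a) (t o ∩ W)
    have h2 := hP a ha
    have h3 := Finset.card_sdiff_add_card_inter (t o ∩ W) (t a)
    have h4 : (t o ∩ W) ∩ t a = t o ∩ t a := by
      ext x
      simp only [Finset.mem_inter]
      constructor
      · rintro ⟨⟨h, _⟩, h'⟩; exact ⟨h, h'⟩
      · rintro ⟨h, h'⟩; exact ⟨⟨h, (hAm a).1 ha h'⟩, h'⟩
    have h5 : (t o ∩ W) \ t a = (W \ t a) ∩ (t o ∩ W) := by
      ext x
      simp only [Finset.mem_inter, Finset.mem_sdiff]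
      tauto
    have h6 := htt o a (hoa a ha)
    rw [h4, h5] at h3
    omega
  have hfin : A.card * (l - (t o ∩ W).card) ≤ l + 2 - (t o ∩ W).card := by
    have h1 : (A.biUnion (fun a => (W \ t a) \ (t o ∩ W))).card =
        ∑ a ∈ A, ((W \ t a) \ (t o ∩ W)).card := by
      refine Finset.card_biUnion ?_
      intro a ha b hb hab
      exact (hPd a ha b hb hab).mono Finset.sdiff_subset Finset.sdiff_subset
    have h2 : (A.biUnion (fun a => (W \ t a) \ (t o ∩ W))).card ≤ (W \ (t o ∩ W)).card := by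
      refine Finset.card_le_card ?_
      intro x hx
      rw [Finset.mem_biUnion] at hx
      obtain ⟨a, _, hx⟩ := hx
      rw [Finset.mem_sdiff, Finset.mem_sdiff] at hx
      exact Finset.mem_sdiff.2 ⟨hx.1.1, hx.2⟩
    have h3 : ∀ a ∈ A, ((W \ t a) \ (t o ∩ W)).card = l - (t o ∩ W).card := by
      intro a ha
      have := hPY a ha
      omega
    rw [h1, Finset.sum_congr rfl h3, Finset.sum_const, smul_eq_mul,
      Finset.card_sdiff_of_subset Finset.inter_subset_right, hW] at h2
    exact h2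
  have h1 := hPY a0 ha0
  have h2 : ((W \ t a0) \ (t o ∩ W)).card ≤ 2 := by
    rw [← hP a0 ha0]
    exact Finset.card_le_card Finset.sdiff_subset
  obtain ⟨u, hu⟩ : ∃ u, l - (t o ∩ W).card = u := ⟨_, rfl⟩
  have h3 : l + 2 - (t o ∩ W).card = u + 2 := by omega
  rw [hu, h3] at hfin
  have h4 : u = 1 ∨ u = 2 := by omega
  rcases h4 with rfl | rfl
  · omega
  · omega

end

section
variable {c n l : ℕ} {t : Fin c → Finset (Fin n)} {E : Type} [Fintype E] [DecidableEq E]
  {v : E → Finset (Fin n)} {s : E → Fin c}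

theorem d_EW (hl : l + 4 = 2 * c) (ht : ∀ i, (t i).card = l)
    (htt : ∀ i j, i ≠ j → (t i ∩ t j).card + 2 = l) (hv : Function.Injective v)
    (hvc : ∀ e, (v e).card = l + 1) (hs : ∀ e i, t i ⊆ v e ↔ s e = i)
    (W : Finset (Fin n)) (hW : W.card = l + 2) :
    (univ.filter (fun g => v g ⊆ W)).card ≤ 6 := by
  classical
  have h1 : (univ.filter (fun g => v g ⊆ W)).card ≤
      ((univ.filter (fun a => t a ⊆ W)).sigma (fun a => W \ t a)).card := by
    -- map g to (s g, the element of v g \ t (s g))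
    have hne : ∀ g, ∃ x, v g \ t (s g) = {x} := by
      intro g
      have h2 : t (s g) ⊆ v g := (hs g _).2 rfl
      have h3 := Finset.card_sdiff_of_subset h2
      rw [hvc, ht] at h3
      exact Finset.card_eq_one.1 (by omega)
    choose x hx using hne
    refine Finset.card_le_card_of_injOn (fun g => (⟨s g, x g⟩ : Σ _ : Fin c, Fin n)) ?_ ?_
    · intro g hg
      have hg' : v g ⊆ W := by simpa using hg
      have h2 : t (s g) ⊆ v g := (hs g _).2 rfl
      have h3 : x g ∈ v g \ t (s g) := by rw [hx g]; exact Finset.mem_singleton_self _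
      rw [Finset.mem_sdiff] at h3
      simp only [Finset.coe_sigma, Set.mem_sigma_iff, Finset.mem_coe, Finset.mem_filter,
        Finset.mem_univ, true_and, Finset.mem_sdiff]
      exact ⟨h2.trans hg', hg' h3.1, h3.2⟩
    · intro g _ g' _ hgg
      have h2 : s g = s g' := congrArg Sigma.fst hgg
      have h3 : x g = x g' := by
        have h4 := hgg
        simp only [Sigma.mk.injEq] at h4
        exact eq_of_heq h4.2
      have h4 : t (s g) ⊆ v g := (hs g _).2 rfl
      have h5 : t (s g') ⊆ v g' := (hs g' _).2 rfl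
      apply hv
      rw [← Finset.sdiff_union_of_subset h4, ← Finset.sdiff_union_of_subset h5, hx, hx, h2, h3]
  refine h1.trans ?_
  rw [Finset.card_sigma]
  have h2 : ∀ a ∈ univ.filter (fun a => t a ⊆ W), (W \ t a).card = 2 := by
    intro a ha
    rw [Finset.mem_filter] at ha
    rw [Finset.card_sdiff_of_subset ha.2, hW, ht a]
    omega
  rw [Finset.sum_congr rfl h2, Finset.sum_const, smul_eq_mul]
  have := d_three hl ht htt W hW
  omega

theorem d_EK (ht : ∀ i, (t i).card = l) (hv : Function.Injective v)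
    (hvc : ∀ e, (v e).card = l + 1) (hs : ∀ e i, t i ⊆ v e ↔ s e = i)
    (K : Finset (Fin n)) (hK : K.card = l) (hKt : ∀ a, K ≠ t a) :
    (univ.filter (fun g => K ⊆ v g)).card ≤ c := by
  classical
  have h1 : (univ.filter (fun g => K ⊆ v g)).card ≤ (univ : Finset (Fin c)).card := by
    refine Finset.card_le_card_of_injOn s (fun _ _ => Finset.mem_coe.2 (Finset.mem_univ _)) ?_
    intro g hg g' hg' hgg
    have h2 : K ⊆ v g := by simpa using hg
    have h3 : K ⊆ v g' := by simpa using hg'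
    have h4 : t (s g) ⊆ v g := (hs g _).2 rfl
    have h5 : t (s g) ⊆ v g' := (hs g' _).2 hgg.symm
    have h6 : l < (K ∪ t (s g)).card := by
      by_contra hcon
      push Not at hcon
      have h7 : K = K ∪ t (s g) :=
        Finset.eq_of_subset_of_card_le Finset.subset_union_left (by rw [hK]; exact hcon)
      have h8 : t (s g) = K ∪ t (s g) :=
        Finset.eq_of_subset_of_card_le Finset.subset_union_right (by rw [ht]; exact hcon)
      exact hKt (s g) (h7.trans h8.symm)
    have h9 : K ∪ t (s g) = v g :=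
      Finset.eq_of_subset_of_card_le (Finset.union_subset h2 h4) (by rw [hvc]; omega)
    have h10 : K ∪ t (s g) = v g' :=
      Finset.eq_of_subset_of_card_le (Finset.union_subset h3 h5) (by rw [hvc]; omega)
    exact hv (h9.symm.trans h10)
  rw [Finset.card_univ, Fintype.card_fin] at h1
  exact h1

/-- the candidate centres -/
def d_KK (t : Fin c → Finset (Fin n)) (p : Fin c × Fin c) : Finset (Finset (Fin n)) :=
  (((t p.1 ∪ t p.2) \ t p.1) ×ˢ ((t p.1 ∪ t p.2) \ t p.2)).image
    (fun z => insert z.1 (t p.1) ∩ insert z.2 (t p.2))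

theorem d_KK_card (ht : ∀ i, (t i).card = l) (htt : ∀ i j, i ≠ j → (t i ∩ t j).card + 2 = l)
    (p : Fin c × Fin c) (hp : p.1 ≠ p.2) : (d_KK t p).card ≤ 4 := by
  unfold d_KK
  refine Finset.card_image_le.trans ?_
  rw [Finset.card_product, Finset.card_sdiff_of_subset Finset.subset_union_left,
    Finset.card_sdiff_of_subset Finset.subset_union_right, d_union ht htt hp, ht, ht]
  have : l + 2 - l = 2 := by omega
  rw [this]

/-- the structure of a mixed class -/
theorem d_struct (ht : ∀ i, (t i).card = l) (htt : ∀ i j, i ≠ j → (t i ∩ t j).card + 2 = l)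
    (hv : Function.Injective v) (hvc : ∀ e, (v e).card = l + 1)
    (hs : ∀ e i, t i ⊆ v e ↔ s e = i) (M : Finset E)
    (hM : ∀ e ∈ M, ∀ f ∈ M, l ≤ (v e ∩ v f).card) (hMp : ¬ Pure s M) :
    ∃ p : Fin c × Fin c, p.1 ≠ p.2 ∧ (M ⊆ univ.filter (fun g => v g ⊆ t p.1 ∪ t p.2) ∨
      ∃ K ∈ d_KK t p, K.card = l ∧ (∀ a, K ≠ t a) ∧ M ⊆ univ.filter (fun g => K ⊆ v g)) := by
  classical
  unfold Pure at hMp
  push Not at hMp
  obtain ⟨e, he, f, hf, hef⟩ := hMp
  have hei : t (s e) ⊆ v e := (hs e _).2 rfl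
  have hfj : t (s f) ⊆ v f := (hs f _).2 rfl
  have hne : v e ≠ v f := fun h => hef (congrArg s (hv h))
  have hKc : (v e ∩ v f).card = l := by
    have h1 := hM e he f hf
    have h2 : (v e ∩ v f).card < l + 1 := by
      by_contra hcon
      push Not at hcon
      have h3 : v e ∩ v f = v e :=
        Finset.eq_of_subset_of_card_le Finset.inter_subset_left (by rw [hvc]; exact hcon)
      have h4 : v e ∩ v f = v f :=
        Finset.eq_of_subset_of_card_le Finset.inter_subset_right (by rw [hvc]; exact hcon)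
      exact hne (h3.symm.trans h4)
    omega
  have hWc : (v e ∪ v f).card = l + 2 := by
    have h1 := Finset.card_union_add_card_inter (v e) (v f)
    rw [hKc, hvc, hvc] at h1
    omega
  have hW : t (s e) ∪ t (s f) = v e ∪ v f :=
    Finset.eq_of_subset_of_card_le (Finset.union_subset_union hei hfj)
      (by rw [hWc, d_union ht htt hef])
  obtain ⟨x, hx⟩ : ∃ x, v e \ t (s e) = {x} := by
    have h3 := Finset.card_sdiff_of_subset hei
    rw [hvc, ht] at h3
    exact Finset.card_eq_one.1 (by omega)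
  obtain ⟨y, hy⟩ : ∃ y, v f \ t (s f) = {y} := by
    have h3 := Finset.card_sdiff_of_subset hfj
    rw [hvc, ht] at h3
    exact Finset.card_eq_one.1 (by omega)
  have hxe : x ∈ v e \ t (s e) := by rw [hx]; exact Finset.mem_singleton_self _
  have hyf : y ∈ v f \ t (s f) := by rw [hy]; exact Finset.mem_singleton_self _
  have hve : v e = insert x (t (s e)) := by
    rw [← Finset.sdiff_union_of_subset hei, hx, Finset.insert_eq]
  have hvf : v f = insert y (t (s f)) := by
    rw [← Finset.sdiff_union_of_subset hfj, hy, Finset.insert_eq]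
  have hKK : v e ∩ v f ∈ d_KK t (s e, s f) := by
    unfold d_KK
    rw [Finset.mem_image]
    refine ⟨(x, y), ?_, ?_⟩
    · rw [Finset.mem_product]
      dsimp only
      rw [hW]
      rw [Finset.mem_sdiff] at hxe hyf
      exact ⟨Finset.mem_sdiff.2 ⟨Finset.mem_union_left _ hxe.1, hxe.2⟩,
        Finset.mem_sdiff.2 ⟨Finset.mem_union_right _ hyf.1, hyf.2⟩⟩
    · dsimp only
      rw [← hve, ← hvf]
  have hKt : ∀ a, v e ∩ v f ≠ t a := by
    intro a ha
    have h1 : t a ⊆ v e := ha ▸ Finset.inter_subset_left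
    have h2 : t a ⊆ v f := ha ▸ Finset.inter_subset_right
    exact hef (((hs e a).1 h1).trans ((hs f a).1 h2).symm)
  -- dichotomy
  have hdi : ∀ g ∈ M, ¬ v g ⊆ v e ∪ v f → v g ∩ (v e ∪ v f) = v e ∩ v f := by
    intro g hg hgW
    have h1 : (v g ∩ (v e ∪ v f)).card ≤ l := by
      have h2 : v g ∩ (v e ∪ v f) ⊂ v g := by
        refine Finset.ssubset_iff_subset_ne.2 ⟨Finset.inter_subset_left, ?_⟩
        intro h3
        exact hgW (Finset.inter_eq_left.1 h3)
      have h3 := Finset.card_lt_card h2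
      rw [hvc] at h3
      omega
    have h2 : v g ∩ v e = v g ∩ (v e ∪ v f) :=
      Finset.eq_of_subset_of_card_le (Finset.inter_subset_inter_left Finset.subset_union_left)
        (h1.trans (hM g hg e he))
    have h3 : v g ∩ v f = v g ∩ (v e ∪ v f) :=
      Finset.eq_of_subset_of_card_le (Finset.inter_subset_inter_left Finset.subset_union_right)
        (h1.trans (hM g hg f hf))
    have h4 : v g ∩ (v e ∪ v f) ⊆ v e ∩ v f := by
      intro z hz
      have h5 : z ∈ v g ∩ v e := h2 ▸ hz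
      have h6 : z ∈ v g ∩ v f := h3 ▸ hz
      exact Finset.mem_inter.2 ⟨(Finset.mem_inter.1 h5).2, (Finset.mem_inter.1 h6).2⟩
    refine Finset.eq_of_subset_of_card_le h4 ?_
    rw [hKc, ← h2]
    exact hM g hg e he
  refine ⟨(s e, s f), hef, ?_⟩
  dsimp only
  by_cases hall : ∀ g ∈ M, v e ∩ v f ⊆ v g
  · right
    refine ⟨v e ∩ v f, hKK, hKc, hKt, ?_⟩
    intro g hg
    exact Finset.mem_filter.2 ⟨Finset.mem_univ _, hall g hg⟩
  · left
    push Not at hall
    obtain ⟨g, hg, hgK⟩ := hall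
    have hgW : v g ⊆ v e ∪ v f := by
      by_contra hcon
      have h1 := hdi g hg hcon
      exact hgK (h1 ▸ Finset.inter_subset_left)
    intro h hh
    refine Finset.mem_filter.2 ⟨Finset.mem_univ _, ?_⟩
    rw [hW]
    by_contra hcon
    have h1 := hdi h hh hcon
    have h2 : v g ∩ v h ⊆ v e ∩ v f := by
      intro z hz
      rw [← h1]
      rw [Finset.mem_inter] at hz
      exact Finset.mem_inter.2 ⟨hz.2, hgW hz.1⟩
    have h3 : v g ∩ v h = v e ∩ v f :=
      Finset.eq_of_subset_of_card_le h2 (by rw [hKc]; exact hM g hg h hh)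
    exact hgK (h3 ▸ Finset.inter_subset_left)

end

theorem stD : StD := by
  intro c n hc t ht htt E _ _ v s hv hvc hs F hF
  classical
  obtain ⟨l, hl⟩ : ∃ l, l = 2 * c - 4 := ⟨_, rfl⟩
  have hl4 : l + 4 = 2 * c := by omega
  have ht' : ∀ i, (t i).card = l := by intro i; rw [ht i, hl]
  have htt' : ∀ i j, i ≠ j → (t i ∩ t j).card + 2 = l := by
    intro i j hij
    have := htt i j hij
    omega
  have hvc' : ∀ e, (v e).card = l + 1 := by
    intro e
    have := hvc e
    omega
  have hst : ∀ M ∈ F, ∃ p : Fin c × Fin c, p.1 ≠ p.2 ∧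
      (M ⊆ univ.filter (fun g => v g ⊆ t p.1 ∪ t p.2) ∨
      ∃ K ∈ d_KK t p, K.card = l ∧ (∀ a, K ≠ t a) ∧ M ⊆ univ.filter (fun g => K ⊆ v g)) := by
    intro M hM
    obtain ⟨h1, h2⟩ := hF M hM
    refine d_struct ht' htt' hv hvc' hs M ?_ h2
    intro e he f hf
    rw [hl]
    exact h1 e he f hf
  have hEW : ∀ p : Fin c × Fin c, p.1 ≠ p.2 →
      (univ.filter (fun g => v g ⊆ t p.1 ∪ t p.2)).card ≤ 6 := by
    intro p hp
    exact d_EW hl4 ht' htt' hv hvc' hs _ (d_union ht' htt' hp)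
  constructor
  · intro M hM
    obtain ⟨p, hp, h1 | ⟨K, hK1, hK2, hK3, h1⟩⟩ := hst M hM
    · have := (Finset.card_le_card h1).trans (hEW p hp)
      omega
    · have := (Finset.card_le_card h1).trans (d_EK ht' hv hvc' hs K hK2 hK3)
      omega
  · obtain ⟨Q, hQ⟩ : ∃ Q : Finset E → Prop, Q = fun M => ∃ p : Fin c × Fin c, p.1 ≠ p.2 ∧
        M ⊆ univ.filter (fun g => v g ⊆ t p.1 ∪ t p.2) := ⟨_, rfl⟩
    have hsplit := Finset.sum_filter_add_sum_filter_not F Q (fun M => (1 / 2 : ℝ) ^ M.card)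
    rw [← hsplit]
    obtain ⟨I, hI⟩ : ∃ I : Finset (Fin c × Fin c), I = univ.filter (fun p => p.1 ≠ p.2) :=
      ⟨_, rfl⟩
    have hIm : ∀ p, p ∈ I ↔ p.1 ≠ p.2 := by intro p; rw [hI]; simp
    have hIc : (I.card : ℝ) ≤ (c : ℝ) ^ 2 := by
      have h1 : I.card ≤ c * c := by
        have h2 := Finset.card_le_univ I
        rw [Fintype.card_prod, Fintype.card_fin] at h2
        exact h2
      have h2 : ((I.card : ℕ) : ℝ) ≤ ((c * c : ℕ) : ℝ) := by exact_mod_cast h1
      rw [Nat.cast_mul] at h2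
      nlinarith
    have hs1 : ∑ M ∈ F.filter Q, (1 / 2 : ℝ) ^ M.card ≤ (c : ℝ) ^ 2 * 12 := by
      refine (d_sum I (fun p => univ.filter (fun g => v g ⊆ t p.1 ∪ t p.2)) _ ?_).trans ?_
      · intro M hM
        rw [Finset.mem_filter, hQ] at hM
        obtain ⟨_, p, hp, h1⟩ := hM
        exact ⟨p, (hIm p).2 hp, h1⟩
      · have h1 : ∀ p ∈ I, (3 / 2 : ℝ) ^ (univ.filter (fun g => v g ⊆ t p.1 ∪ t p.2)).card ≤
            12 := by
          intro p hp
          have h2 := hEW p ((hIm p).1 hp)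
          have h3 : (3 / 2 : ℝ) ^ (univ.filter (fun g => v g ⊆ t p.1 ∪ t p.2)).card ≤
              (3 / 2 : ℝ) ^ 6 := pow_le_pow_right₀ (by norm_num) h2
          refine h3.trans ?_
          norm_num
        refine (Finset.sum_le_sum h1).trans ?_
        rw [Finset.sum_const, nsmul_eq_mul]
        nlinarith
    have hs2 : ∑ M ∈ F.filter (fun M => ¬ Q M), (1 / 2 : ℝ) ^ M.card ≤
        (c : ℝ) ^ 2 * (4 * (3 / 2) ^ c) := by
      refine (d_sum (I.sigma (fun p => (d_KK t p).filter (fun K => K.card = l ∧ ∀ a, K ≠ t a)))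
        (fun z => univ.filter (fun g => z.2 ⊆ v g)) _ ?_).trans ?_
      · intro M hM
        rw [Finset.mem_filter, hQ] at hM
        obtain ⟨hM1, hM2⟩ := hM
        obtain ⟨p, hp, h1 | ⟨K, hK1, hK2, hK3, h1⟩⟩ := hst M hM1
        · exact absurd ⟨p, hp, h1⟩ hM2
        · refine ⟨⟨p, K⟩, ?_, h1⟩
          rw [Finset.mem_sigma, Finset.mem_filter]
          exact ⟨(hIm p).2 hp, hK1, hK2, hK3⟩
      · rw [Finset.sum_sigma]
        have h0 : (0 : ℝ) ≤ (3 / 2 : ℝ) ^ c := by positivity
        have h1 : ∀ p ∈ I, ∑ K ∈ (d_KK t p).filter (fun K => K.card = l ∧ ∀ a, K ≠ t a),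
            (3 / 2 : ℝ) ^ (univ.filter (fun g => K ⊆ v g)).card ≤ 4 * (3 / 2) ^ c := by
          intro p hp
          have h2 : ∀ K ∈ (d_KK t p).filter (fun K => K.card = l ∧ ∀ a, K ≠ t a),
              (3 / 2 : ℝ) ^ (univ.filter (fun g => K ⊆ v g)).card ≤ (3 / 2) ^ c := by
            intro K hK
            rw [Finset.mem_filter] at hK
            exact pow_le_pow_right₀ (by norm_num) (d_EK ht' hv hvc' hs K hK.2.1 hK.2.2)
          refine (Finset.sum_le_sum h2).trans ?_
          rw [Finset.sum_const, nsmul_eq_mul]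
          have h3 : ((d_KK t p).filter (fun K => K.card = l ∧ ∀ a, K ≠ t a)).card ≤ 4 :=
            (Finset.card_filter_le _ _).trans (d_KK_card ht' htt' p ((hIm p).1 hp))
          have h4 : ((((d_KK t p).filter (fun K => K.card = l ∧ ∀ a, K ≠ t a)).card : ℕ) : ℝ)
              ≤ 4 := by exact_mod_cast h3
          exact mul_le_mul_of_nonneg_right h4 h0
        refine (Finset.sum_le_sum h1).trans ?_
        rw [Finset.sum_const, nsmul_eq_mul]
        exact mul_le_mul_of_nonneg_right hIc (by positivity)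
    calc _ ≤ (c : ℝ) ^ 2 * 12 + (c : ℝ) ^ 2 * (4 * (3 / 2) ^ c) := add_le_add hs1 hs2
      _ = (c : ℝ) ^ 2 * (12 + 4 * (3 / 2) ^ c) := by ring

end R132.KC
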