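import Mathlib

/-!
MP_c675bc: definitions and exact statements of the modules.
All colorings of a hypergraph H are maps from the subtype of H to Fin k.
-/

namespace R132.KC

open Finset

/-- the number of (k,l)-Kneser colorings of the hypergraph `H` -/
noncomputable def kappa (k l : ℕ) {n : ℕ} (H : Finset (Finset (Fin n))) : ℕ :=
  Nat.card {D : {e // e ∈ H} → Fin k //
    ∀ e f : {e // e ∈ H}, D e = D f → l ≤ (e.1 ∩ f.1).card}

/-- the maximum of `kappa k l` over all r-uniform hypergraphs on `Fin n` -/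
noncomputable def KCmax (n r k l : ℕ) : ℕ :=
  (powersetCard r (univ : Finset (Fin n))).powerset.sup (fun H => kappa k l H)

/-- the (C,r)-complete hypergraph -/
def Hc {n : ℕ} (C : Finset (Finset (Fin n))) (r : ℕ) : Finset (Finset (Fin n)) :=
  (powersetCard r (univ : Finset (Fin n))).filter (fun e => ∃ t ∈ C, t ⊆ e)

/-- every colour class lies in one fibre of `s` -/
def Sep {E : Type} {c k : ℕ} (s : E → Fin c) (D : E → Fin k) : Prop :=
  ∀ e f, D e = D f → s e = s f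

/-- a set of edges inside one fibre of `s` -/
def Pure {E : Type} {c : ℕ} (s : E → Fin c) (M : Finset E) : Prop :=
  ∀ e ∈ M, ∀ f ∈ M, s e = s f

/-- every colour class is pure or belongs to `F`, and not all classes are pure -/
def Mixed {E : Type} [Fintype E] {c k : ℕ} (s : E → Fin c) (F : Finset (Finset E))
    (D : E → Fin k) : Prop :=
  (∀ x : Fin k, Pure s (univ.filter (fun e => D e = x)) ∨ univ.filter (fun e => D e = x) ∈ F)
    ∧ ¬ Sep s D

/-- assignments of the 3c colours to c stars, one colour unassigned, every star getting 2 or 3 -/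
noncomputable def Phi (c : ℕ) : ℕ :=
  Nat.card {T : Fin (3 * c) → Option (Fin c) //
    (univ.filter (fun x => T x = none)).card = 1 ∧
    ∀ i, (univ.filter (fun x => T x = some i)).card = 2 ∨
      (univ.filter (fun x => T x = some i)).card = 3}

/-- assignments of the 3c colours to c stars, every star getting exactly 3 -/
noncomputable def Phi3 (c : ℕ) : ℕ :=
  Nat.card {T : Fin (3 * c) → Fin c // ∀ i, (univ.filter (fun x => T x = i)).card = 3}

/-- Module A (upper bound for the number of mixed colorings) -/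
def StA : Prop := ∀ (c L : ℕ), 1 ≤ c → ∀ (R ε : ℝ), 0 < ε → ∃ m0 : ℕ, ∀ m ≥ m0,
  ∀ (E : Type) [Fintype E] [DecidableEq E] (s : E → Fin c),
    (∀ i, (univ.filter (fun e => s e = i)).card = m) →
    ∀ F : Finset (Finset E), (∀ M ∈ F, M.card ≤ L) →
      ∑ M ∈ F, (1 / 2 : ℝ) ^ M.card ≤ R →
      (Nat.card {D : E → Fin (3 * c) // Mixed s F D} : ℝ) ≤
        ((Phi c : ℝ) * R + ε) * (2 * 3 ^ (c - 1)) ^ m

/-- Module B (lower bound for the number of mixed colorings) -/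
def StB : Prop := ∀ (c L : ℕ), 1 ≤ c → ∀ ε : ℝ, 0 < ε → ∃ m0 : ℕ, ∀ m ≥ m0,
  ∀ (E : Type) [Fintype E] [DecidableEq E] (s : E → Fin c),
    (∀ i, (univ.filter (fun e => s e = i)).card = m) →
    ∀ F : Finset (Finset E), (∀ M ∈ F, M.card ≤ L ∧ ¬ Pure s M) →
      (Phi c : ℝ) * (∑ M ∈ F, (1 / 3 : ℝ) ^ M.card) * (1 - ε) * (2 * 3 ^ (c - 1)) ^ m ≤
      (Nat.card {D : E → Fin (3 * c) // Mixed s F D} : ℝ)

/-- Module L (lower bound for the number of separated colorings) -/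
def StL : Prop := ∀ c : ℕ, 1 ≤ c → ∃ m0 : ℕ, ∀ m ≥ m0,
  ∀ (E : Type) [Fintype E] [DecidableEq E] (s : E → Fin c),
    (∀ i, (univ.filter (fun e => s e = i)).card = m) →
      (3 / 4 : ℝ) * Phi3 c * 3 ^ (c * m) ≤ (Nat.card {D : E → Fin (3 * c) // Sep s D} : ℝ)

/-- Module C (structure of hypergraphs with many colorings, r = l + 1, k = 3c) -/
def StC : Prop := ∀ c l : ℕ, 2 ≤ c → 1 ≤ l → ∃ n0 : ℕ, ∀ n ≥ n0,
  ∀ H : Finset (Finset (Fin n)), (∀ e ∈ H, e.card = l + 1) →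
    (3 / 4 : ℝ) * Phi3 c * 3 ^ (c * (n - l)) ≤ (kappa (3 * c) l H : ℝ) →
    ∃ T : Finset (Finset (Fin n)), T.card = c ∧ (∀ t ∈ T, t.card = l) ∧
      (∀ t ∈ T, ∀ t' ∈ T, t ≠ t' → l + 1 < (t ∪ t').card) ∧ H = Hc T (l + 1)

/-- Module D (mixed classes of an equidistant family), l = 2c-4 -/
def StD : Prop := ∀ (c n : ℕ), 4 ≤ c → ∀ t : Fin c → Finset (Fin n),
  (∀ i, (t i).card = 2 * c - 4) → (∀ i j, i ≠ j → (t i ∩ t j).card = 2 * c - 6) →
  ∀ (E : Type) [Fintype E] [DecidableEq E] (v : E → Finset (Fin n)) (s : E → Fin c),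
    Function.Injective v → (∀ e, (v e).card = 2 * c - 3) → (∀ e i, t i ⊆ v e ↔ s e = i) →
    ∀ F : Finset (Finset E),
      (∀ M ∈ F, (∀ e ∈ M, ∀ f ∈ M, 2 * c - 4 ≤ (v e ∩ v f).card) ∧ ¬ Pure s M) →
      (∀ M ∈ F, M.card ≤ c + 6) ∧
      ∑ M ∈ F, (1 / 2 : ℝ) ^ M.card ≤ (c : ℝ) ^ 2 * (12 + 4 * (3 / 2) ^ c)

end R132.KC
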