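import Pool.Agent.R132.KC.BL2
import Pool.Agent.R132.KC.Cs

namespace R132.KC

open Finset

attribute [local instance] Classical.propDecidable

theorem mixed_mono {E : Type} [Fintype E] {c k : ℕ} (s : E → Fin c) (F F' : Finset (Finset E))
    (h : F ⊆ F') : Nat.card {D : E → Fin k // Mixed s F D} ≤
      Nat.card {D : E → Fin k // Mixed s F' D} := by
  rw [Nat.card_eq_fintype_card, Nat.card_eq_fintype_card, Fintype.card_subtype,
    Fintype.card_subtype]
  apply Finset.card_le_card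
  intro D hD
  rw [Finset.mem_filter] at hD ⊢
  refine ⟨hD.1, ?_, hD.2.2⟩
  intro x
  rcases hD.2.1 x with h1 | h1
  · exact Or.inl h1
  · exact Or.inr (h h1)

/-- an equidistant family has fewer colorings than the special family -/
theorem equi_lt (hA : StA) (hD : StD) (q : ℕ) (hq : 99 ≤ q) : ∃ n0, ∀ n ≥ n0,
    4 * q ≤ n ∧ ∀ t : Fin (q + 1) → Finset (Fin n), (∀ i, (t i).card = 2 * (q + 1) - 4) →
      (∀ i j, i ≠ j → (t i ∩ t j).card = 2 * (q + 1) - 6) →
      kappa (3 * (q + 1)) (2 * (q + 1) - 4) (Hc (univ.image t) (2 * (q + 1) - 4 + 1)) <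
      kappa (3 * (q + 1)) (2 * (q + 1) - 4) (Hc (univ.image (ts q n)) (2 * (q + 1) - 4 + 1)) := by
  set R : ℝ := ((q + 1 : ℕ) : ℝ) ^ 2 * (12 + 4 * (3 / 2) ^ (q + 1)) with hR
  have hnum := num_main (q + 1) (by omega)
  rw [← hR, Nat.add_sub_cancel] at hnum
  set A : ℝ := (16 / 9 : ℝ) ^ q - q * (16 / 9) with hAdef
  have hPhi : (1 : ℝ) ≤ Phi (q + 1) := by exact_mod_cast Phi_pos (q + 1) (by omega)
  have hRpos : 0 ≤ R := by positivity
  have hApos : 0 < A := lt_of_le_of_lt hRpos hnum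
  -- choice of the epsilons
  set e1 : ℝ := (A - R) / (4 * A) with he1
  have he1pos : 0 < e1 := div_pos (by linarith) (by linarith)
  have he1' : A * (1 - e1) = A - (A - R) / 4 := by
    rw [he1]; field_simp
  set e2 : ℝ := (A - R) / 4 with he2
  have he2pos : 0 < e2 := by linarith
  obtain ⟨mA, hmA⟩ := hA (q + 1) (q + 1 + 6) (by omega) R e2 he2pos
  obtain ⟨mB, hmB⟩ := stB (q + 1) (2 * q) (by omega) e1 he1pos
  refine ⟨mA + mB + 4 * q, ?_⟩
  intro n hn
  have h4q : 4 * q ≤ n := by omega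
  refine ⟨h4q, ?_⟩
  intro t ht htd
  have hu : ∀ i j, i ≠ j → 2 * (q + 1) - 4 + 1 < (t i ∪ t j).card := by
    intro i j hij
    have h1 := Finset.card_union_add_card_inter (t i) (t j)
    rw [ht i, ht j, htd i j hij] at h1
    omega
  have hq2 : 2 ≤ q := by omega
  rw [kappa_split t ht hu, kappa_split (ts q n) (ts_card hq2 h4q) (ts_union hq2 h4q)]
  have hsep := sep_eq (k := 3 * (q + 1)) (st t) (st (ts q n)) (m := n - (2 * (q + 1) - 4))
    (fib_card t ht hu) (fib_card (ts q n) (ts_card hq2 h4q) (ts_union hq2 h4q))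
  rw [hsep]
  apply Nat.add_lt_add_left
  -- upper bound
  have hDt := hD (q + 1) n (by omega) t ht htd (Ed (2 * (q + 1) - 4) t) (fun e => e.1) (st t)
    (fun _ _ h => Subtype.ext h)
    (fun e => by have := ((mem_Hc_iff t).mp e.2).1; omega)
    (fun e i => st_iff t hu e i) (Fam (2 * (q + 1) - 4) t)
    (fun M hM => by
      unfold Fam at hM
      exact (Finset.mem_filter.mp hM).2)
  have hup := hmA (n - (2 * (q + 1) - 4)) (by omega) (Ed (2 * (q + 1) - 4) t) (st t)
    (by intro i; convert fib_card t ht hu i) (Fam (2 * (q + 1) - 4) t) hDt.1 hDt.2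
  have hlow := hmB (n - (2 * (q + 1) - 4)) (by omega) (Ed (2 * (q + 1) - 4) (ts q n)) (st (ts q n))
    (by intro i; convert fib_card (ts q n) (ts_card hq2 h4q) (ts_union hq2 h4q) i)
    (Fs hq2 h4q) (Fs_prop hq2 h4q)
  have hmono := mixed_mono (k := 3 * (q + 1)) (st (ts q n)) _ _ (Fs_sub hq2 h4q)
  have hmono' : (Nat.card {D : Ed (2 * (q + 1) - 4) (ts q n) → Fin (3 * (q + 1)) //
      Mixed (st (ts q n)) (Fs hq2 h4q) D} : ℝ) ≤
      (Nat.card {D : Ed (2 * (q + 1) - 4) (ts q n) → Fin (3 * (q + 1)) //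
      Mixed (st (ts q n)) (Fam (2 * (q + 1) - 4) (ts q n)) D} : ℝ) := by exact_mod_cast hmono
  have hsum := Fs_sum hq2 h4q
  rw [← hAdef] at hsum
  set X : ℝ := (2 * 3 ^ (q + 1 - 1)) ^ (n - (2 * (q + 1) - 4)) with hX
  have hXpos : 0 < X := by positivity
  have hlt : ((Phi (q + 1) : ℝ) * R + e2) * X <
      (Phi (q + 1) : ℝ) * (∑ M ∈ Fs hq2 h4q, (1 / 3 : ℝ) ^ M.card) * (1 - e1) * X := by
    apply mul_lt_mul_of_pos_right _ hXpos
    have h1e : 0 < 1 - e1 := by
      have : 0 < A * (1 - e1) := by rw [he1']; linarith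
      exact (mul_pos_iff_of_pos_left hApos).mp this
    calc (Phi (q + 1) : ℝ) * R + e2 ≤ (Phi (q + 1) : ℝ) * R + Phi (q + 1) * e2 := by
          nlinarith
      _ = (Phi (q + 1) : ℝ) * (R + e2) := by ring
      _ < (Phi (q + 1) : ℝ) * (A * (1 - e1)) := by
          apply mul_lt_mul_of_pos_left _ (by linarith)
          rw [he1', he2]
          linarith
      _ ≤ (Phi (q + 1) : ℝ) * ((∑ M ∈ Fs hq2 h4q, (1 / 3 : ℝ) ^ M.card) * (1 - e1)) := by
          apply mul_le_mul_of_nonneg_left _ (by linarith)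
          exact mul_le_mul_of_nonneg_right hsum h1e.le
      _ = _ := by ring
  have hfin := lt_of_le_of_lt hup (lt_of_lt_of_le hlt (hlow.trans hmono'))
  exact_mod_cast hfin

end R132.KC
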