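import Pool.Agent.R132.KC.Fin

namespace R132.KC

open Finset

attribute [local instance] Classical.propDecidable

theorem le_KCmax {n r k l : ℕ} (H : Finset (Finset (Fin n))) (hH : ∀ e ∈ H, e.card = r) :
    kappa k l H ≤ KCmax n r k l := by
  unfold KCmax
  apply Finset.le_sup (f := fun H => kappa k l H)
  rw [Finset.mem_powerset]
  intro e he
  exact Finset.mem_powersetCard.mpr ⟨Finset.subset_univ _, hH e he⟩

theorem KCmax_attained (n r k l : ℕ) : ∃ H : Finset (Finset (Fin n)),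
    (∀ e ∈ H, e.card = r) ∧ kappa k l H = KCmax n r k l := by
  obtain ⟨H, hH, h⟩ := Finset.exists_mem_eq_sup
    ((powersetCard r (univ : Finset (Fin n))).powerset) ⟨∅, by simp⟩ (fun H => kappa k l H)
  refine ⟨H, ?_, h.symm⟩
  intro e he
  exact (Finset.mem_powersetCard.mp ((Finset.mem_powerset.mp hH) he)).2

theorem Hc_card {n : ℕ} (C : Finset (Finset (Fin n))) (r : ℕ) : ∀ e ∈ Hc C r, e.card = r := by
  intro e he
  unfold Hc at he
  exact (Finset.mem_powersetCard.mp (Finset.mem_filter.mp he).1).2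

theorem main_thm (hA : StA) (hC : StC) (hD : StD) (q : ℕ) (hq : 99 ≤ q) : ∃ n0, ∀ n ≥ n0,
    (∀ H : Finset (Finset (Fin n)), (∀ e ∈ H, e.card = 2 * (q + 1) - 4 + 1) →
      kappa (3 * (q + 1)) (2 * (q + 1) - 4) H =
        KCmax n (2 * (q + 1) - 4 + 1) (3 * (q + 1)) (2 * (q + 1) - 4) →
      ∃ C : Finset (Finset (Fin n)), C.card = q + 1 ∧ (∀ t ∈ C, t.card = 2 * (q + 1) - 4) ∧
        (∀ t ∈ C, ∀ t' ∈ C, t ≠ t' → (t ∩ t').card ≤ 2 * (q + 1) - 6) ∧
        H = Hc C (2 * (q + 1) - 4 + 1)) ∧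
    (∀ C : Finset (Finset (Fin n)), C.card = q + 1 → (∀ t ∈ C, t.card = 2 * (q + 1) - 4) →
      kappa (3 * (q + 1)) (2 * (q + 1) - 4) (Hc C (2 * (q + 1) - 4 + 1)) =
        KCmax n (2 * (q + 1) - 4 + 1) (3 * (q + 1)) (2 * (q + 1) - 4) →
      ¬ ∀ t ∈ C, ∀ t' ∈ C, t ≠ t' → (t ∩ t').card = 2 * (q + 1) - 6) := by
  obtain ⟨n1, hn1⟩ := equi_lt hA hD q hq
  obtain ⟨n2, hn2⟩ := hC (q + 1) (2 * (q + 1) - 4) (by omega) (by omega)
  obtain ⟨m3, hm3⟩ := stL (q + 1) (by omega)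
  refine ⟨n1 + n2 + m3 + 4 * q, ?_⟩
  intro n hn
  have hq2 : 2 ≤ q := by omega
  obtain ⟨h4q, hlt⟩ := hn1 n (by omega)
  constructor
  · intro H hHr hHmax
    have h1 : (3 / 4 : ℝ) * Phi3 (q + 1) * 3 ^ ((q + 1) * (n - (2 * (q + 1) - 4))) ≤
        (kappa (3 * (q + 1)) (2 * (q + 1) - 4) H : ℝ) := by
      have h2 := hm3 (n - (2 * (q + 1) - 4)) (by omega) (Ed (2 * (q + 1) - 4) (ts q n))
        (st (ts q n))
        (by intro i; convert fib_card (ts q n) (ts_card hq2 h4q) (ts_union hq2 h4q) i)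
      refine h2.trans ?_
      have h3 := kappa_split (ts q n) (ts_card hq2 h4q) (ts_union hq2 h4q) (3 * (q + 1))
      have h4 := le_KCmax (k := 3 * (q + 1)) (l := 2 * (q + 1) - 4)
        (Hc (univ.image (ts q n)) (2 * (q + 1) - 4 + 1)) (Hc_card _ _)
      rw [hHmax]
      have h5 : Nat.card {D : Ed (2 * (q + 1) - 4) (ts q n) → Fin (3 * (q + 1)) //
          Sep (st (ts q n)) D} ≤
          KCmax n (2 * (q + 1) - 4 + 1) (3 * (q + 1)) (2 * (q + 1) - 4) := by
        omega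
      exact_mod_cast h5
    obtain ⟨T, hT1, hT2, hT3, hT4⟩ := hn2 n (by omega) H hHr h1
    refine ⟨T, hT1, hT2, ?_, hT4⟩
    intro t ht t' ht' hne
    have h2 := hT3 t ht t' ht' hne
    have h3 := Finset.card_union_add_card_inter t t'
    rw [hT2 t ht, hT2 t' ht'] at h3
    omega
  · intro C hCc hCl hCmax heq
    have hcf : Fintype.card C = q + 1 := by rw [Fintype.card_coe, hCc]
    let g : Fin (q + 1) ≃ C := (Fintype.equivFinOfCardEq hcf).symm
    let t : Fin (q + 1) → Finset (Fin n) := fun i => (g i).1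
    have himg : univ.image t = C := by
      ext x
      simp only [Finset.mem_image, Finset.mem_univ, true_and, t]
      constructor
      · rintro ⟨i, rfl⟩; exact (g i).2
      · intro hx
        exact ⟨g.symm ⟨x, hx⟩, by simp⟩
    have h1 := hlt t (fun i => hCl _ (g i).2) (by
      intro i j hij
      apply heq _ (g i).2 _ (g j).2
      intro h
      exact hij (g.injective (Subtype.ext h)))
    rw [himg] at h1
    have h2 := le_KCmax (k := 3 * (q + 1)) (l := 2 * (q + 1) - 4)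
      (Hc (univ.image (ts q n)) (2 * (q + 1) - 4 + 1)) (Hc_card _ _)
    have h3 := lt_of_lt_of_le h1 h2
    exact absurd hCmax (Nat.ne_of_lt (by convert h3))

end R132.KC
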