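import Pool.Agent.R132.KC.Defs

namespace R132.KC

open Finset

attribute [local instance] Classical.propDecidable

theorem sep_eq {E E' : Type} [Fintype E] [Fintype E'] {c k m : ℕ}
    (s : E → Fin c) (s' : E' → Fin c)
    (hs : ∀ i, (univ.filter (fun e => s e = i)).card = m)
    (hs' : ∀ i, (univ.filter (fun e => s' e = i)).card = m) :
    Nat.card {D : E → Fin k // Sep s D} = Nat.card {D : E' → Fin k // Sep s' D} := by
  have h1 : ∀ i, Nonempty ({e // s e = i} ≃ {e // s' e = i}) := by
    intro i
    rw [← Fintype.card_eq, Fintype.card_subtype, Fintype.card_subtype, hs i, hs' i]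
  let G : E ≃ E' := (Equiv.sigmaFiberEquiv s).symm.trans
    ((Equiv.sigmaCongrRight (fun i => (h1 i).some)).trans (Equiv.sigmaFiberEquiv s'))
  have hG : ∀ e, s' (G e) = s e := by
    intro e
    exact ((h1 (s e)).some ⟨e, rfl⟩).2
  apply Nat.card_congr
  refine (Equiv.arrowCongr G (Equiv.refl (Fin k))).subtypeEquiv ?_
  intro D
  constructor
  · intro h e f hef
    have := h (G.symm e) (G.symm f) (by simpa [Equiv.arrowCongr] using hef)
    rw [← hG, ← hG, Equiv.apply_symm_apply, Equiv.apply_symm_apply] at this
    exact this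
  · intro h e f hef
    have := h (G e) (G f) (by simpa [Equiv.arrowCongr] using hef)
    rw [hG, hG] at this
    exact this

section
variable {n c l : ℕ} (t : Fin c → Finset (Fin n)) (ht : ∀ i, (t i).card = l)
  (hu : ∀ i j, i ≠ j → l + 1 < (t i ∪ t j).card)

/-- edges of the complete hypergraph of the family t -/
abbrev Ed {n c : ℕ} (l : ℕ) (t : Fin c → Finset (Fin n)) : Type := {e // e ∈ Hc (univ.image t) (l + 1)}

theorem mem_Hc_iff {e : Finset (Fin n)} :
    e ∈ Hc (univ.image t) (l + 1) ↔ e.card = l + 1 ∧ ∃ i, t i ⊆ e := by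
  unfold Hc
  rw [Finset.mem_filter, Finset.mem_powersetCard]
  simp

theorem star_exists (e : Ed l t) : ∃ i, t i ⊆ e.1 := ((mem_Hc_iff t).mp e.2).2

/-- the star of an edge -/
noncomputable def st (e : Ed l t) : Fin c := (star_exists t e).choose

include hu in
theorem st_iff (e : Ed l t) (i : Fin c) : t i ⊆ e.1 ↔ st t e = i := by
  have h1 : t (st t e) ⊆ e.1 := (star_exists t e).choose_spec
  constructor
  · intro h
    by_contra hne
    have h2 := hu _ _ hne
    have h3 := Finset.card_le_card (Finset.union_subset h1 h)
    have h4 := ((mem_Hc_iff t).mp e.2).1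
    omega
  · intro h
    rw [← h]; exact h1

include ht hu in
theorem fib_card (i : Fin c) : (univ.filter (fun e : Ed l t => st t e = i)).card = n - l := by
  have h1 : (univ \ t i).card = n - l := by
    rw [Finset.card_sdiff_of_subset (Finset.subset_univ _), Finset.card_univ, Fintype.card_fin, ht i]
  rw [← h1]
  symm
  have hmem : ∀ z ∈ univ \ t i, insert z (t i) ∈ Hc (univ.image t) (l + 1) := by
    intro z hz
    rw [mem_Hc_iff]
    refine ⟨?_, i, Finset.subset_insert _ _⟩
    rw [Finset.card_insert_of_notMem (Finset.mem_sdiff.mp hz).2, ht i]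
  refine Finset.card_bij (fun z hz => (⟨insert z (t i), hmem z hz⟩ : Ed l t)) ?_ ?_ ?_
  · intro z hz
    rw [Finset.mem_filter]
    refine ⟨Finset.mem_univ _, ?_⟩
    rw [← st_iff t hu]
    exact Finset.subset_insert _ _
  · intro z hz z' hz' h
    have h2 : insert z (t i) = insert z' (t i) := congrArg Subtype.val h
    have h3 : z ∈ insert z' (t i) := by rw [← h2]; exact Finset.mem_insert_self _ _
    rcases Finset.mem_insert.mp h3 with h | h
    · exact h
    · exact absurd h (Finset.mem_sdiff.mp hz).2
  · intro e he
    have h2 : t i ⊆ e.1 := (st_iff t hu e i).mpr (Finset.mem_filter.mp he).2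
    have h3 := ((mem_Hc_iff t).mp e.2).1
    have h4 : (e.1 \ t i).card = 1 := by
      rw [Finset.card_sdiff_of_subset h2, ht i, h3]; omega
    obtain ⟨z, hz⟩ := Finset.card_eq_one.mp h4
    have hz' : z ∈ e.1 \ t i := by rw [hz]; exact Finset.mem_singleton_self _
    refine ⟨z, Finset.mem_sdiff.mpr ⟨Finset.mem_univ _, (Finset.mem_sdiff.mp hz').2⟩, ?_⟩
    apply Subtype.ext
    show insert z (t i) = e.1
    rw [Finset.insert_eq, ← hz, Finset.sdiff_union_of_subset h2]

/-- the mixed classes -/
noncomputable def Fam {n c : ℕ} (l : ℕ) (t : Fin c → Finset (Fin n)) : Finset (Finset (Ed l t)) :=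
  univ.filter (fun M => (∀ e ∈ M, ∀ f ∈ M, l ≤ (e.1 ∩ f.1).card) ∧ ¬ Pure (st t) M)

include ht hu in
theorem kappa_split (k : ℕ) : kappa k l (Hc (univ.image t) (l + 1)) =
    Nat.card {D : Ed l t → Fin k // Sep (st t) D} +
    Nat.card {D : Ed l t → Fin k // Mixed (st t) (Fam l t) D} := by
  unfold kappa
  rw [Nat.card_eq_fintype_card, Nat.card_eq_fintype_card, Nat.card_eq_fintype_card,
    Fintype.card_subtype, Fintype.card_subtype, Fintype.card_subtype,
    ← Finset.card_union_of_disjoint]
  · congr 1
    ext D
    simp only [Finset.mem_filter, Finset.mem_univ, true_and, Finset.mem_union]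
    constructor
    · intro h
      by_cases hsep : Sep (st t) D
      · exact Or.inl hsep
      · right
        refine ⟨?_, hsep⟩
        intro x
        by_cases hp : Pure (st t) (univ.filter (fun e => D e = x))
        · exact Or.inl hp
        · right
          unfold Fam
          rw [Finset.mem_filter]
          refine ⟨Finset.mem_univ _, ?_, hp⟩
          intro e he f hf
          rw [Finset.mem_filter] at he hf
          exact h e f (he.2.trans hf.2.symm)
    · intro h e f hef
      have hpure : ∀ e f : Ed l t, st t e = st t f → l ≤ (e.1 ∩ f.1).card := by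
        intro e f hst
        have h1 := (st_iff t hu e (st t f)).mpr hst
        have h2 := (st_iff t hu f (st t f)).mpr rfl
        exact (ht (st t f)).symm.le.trans (Finset.card_le_card (Finset.subset_inter h1 h2))
      rcases h with h | h
      · exact hpure e f (h e f hef)
      · have he : e ∈ univ.filter (fun e' => D e' = D f) :=
          Finset.mem_filter.mpr ⟨Finset.mem_univ _, hef⟩
        have hf : f ∈ univ.filter (fun e' => D e' = D f) :=
          Finset.mem_filter.mpr ⟨Finset.mem_univ _, rfl⟩
        rcases h.1 (D f) with hp | hp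
        · exact hpure e f (hp e he f hf)
        · unfold Fam at hp
          rw [Finset.mem_filter] at hp
          exact hp.2.1 e he f hf
  · rw [Finset.disjoint_left]
    intro D h1 h2
    rw [Finset.mem_filter] at h1 h2
    exact h2.2.2 h1.2

end

end R132.KC
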